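import Pool.Agent.V5helper60.HW.Crit2
import Pool.Agent.W353.NF.Burn
import Pool.Agent.W353.EF.Defs

/-!
# Counting the embeddings fixed by an automorphism, and a mean value
-/

set_option autoImplicit false

namespace Pool.Agent.V5helper60.AF

open NumberField
open Pool.Agent.V5helper60.HW
open Pool.Agent.W353.EF (perm meanAbs)

section
variable {K : Type} [Field K] [NumberField K]


theorem mean_eq {l : ℕ} (F : Fin l → Type) [∀ k, Field (F k)] [∀ k, NumberField (F k)]
    [∀ k, Algebra K (F k)] (c : Fin l → ℝ)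
    (h : ∀ σ : Gal(AlgebraicClosure K/K), 0 ≤ ∑ k, c k * (Nat.card {i : F k →ₐ[K] AlgebraicClosure K //
      perm K (F k) σ i = i} : ℝ)) :
    meanAbs K F c = ∑ k, c k := by
  classical
  unfold meanAbs
  set P := (MonoidHom.pi fun k => perm K (F k)).range with hP
  have hfin : Finite P := inferInstance
  let _ : Fintype P := Fintype.ofFinite P
  have h0 : (Nat.card P : ℝ) ≠ 0 := by exact_mod_cast Nat.card_pos.ne'
  have h1 : ∀ g : P, |∑ k, c k * (Nat.card {i : F k →ₐ[K] AlgebraicClosure K // g.1 k i = i} : ℝ)| =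
      ∑ k, c k * (Nat.card {i : F k →ₐ[K] AlgebraicClosure K // g.1 k i = i} : ℝ) := by
    rintro ⟨g, σ, rfl⟩
    exact abs_of_nonneg (h σ)
  have h2 : ∀ k, ∑ g : P, (Nat.card {i : F k →ₐ[K] AlgebraicClosure K // g.1 k i = i} : ℝ) =
      Nat.card P := by
    intro k
    have hne : Nonempty (F k →ₐ[K] AlgebraicClosure K) := ⟨IsAlgClosed.lift⟩
    have h3 := Pool.Agent.W353.NF.burnside
      (((Pi.evalMonoidHom (fun k => Equiv.Perm (F k →ₐ[K] AlgebraicClosure K)) k).comp P.subtype))
      (fun x y => by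
        obtain ⟨σ, hσ⟩ := Pool.Agent.W353.NF.act_trans K (F k) x y
        exact ⟨⟨_, σ, rfl⟩, hσ⟩)
    rw [finsum_eq_sum_of_fintype] at h3
    exact h3
  rw [finsum_eq_sum_of_fintype, Finset.sum_congr rfl fun g _ => h1 g, Finset.sum_comm]
  have h4 : ∀ k, ∑ g : P, c k * (Nat.card {i : F k →ₐ[K] AlgebraicClosure K // g.1 k i = i} : ℝ) =
      c k * Nat.card P := by
    intro k
    rw [← Finset.mul_sum, h2]
  rw [Finset.sum_congr rfl fun k _ => h4 k, ← Finset.sum_mul, mul_comm, mul_assoc,
    mul_inv_cancel₀ h0, mul_one]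

end

section
variable {K Ω : Type} [Field K] [Field Ω] [Algebra K Ω] [IsAlgClosed Ω] [CharZero Ω]

/-- the embeddings over `F` fixed by an automorphism over `F` -/
theorem card_over (F : IntermediateField K Ω) (Y : IntermediateField F Ω) [FiniteDimensional F Y]
    [Normal F Y] (σ : Ω ≃ₐ[K] Ω) :
    Nat.card {i : Y →ₐ[F] Ω // ∀ y, σ (i y) = i y} =
      (open Classical in if ∀ y ∈ Y, σ y = y then Module.finrank F Y else 0) := by
  classical
  have hsep : Algebra.IsSeparable F Y := inferInstance
  split_ifs with h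
  · have h1 : ∀ i : Y →ₐ[F] Ω, ∀ y, σ (i y) = i y := by
      intro i y
      apply h
      have h2 : i.fieldRange = Y := AlgHom.fieldRange_of_normal i
      exact h2.le ⟨y, rfl⟩
    rw [← AlgHom.card F Y Ω, ← Nat.card_eq_fintype_card]
    exact Nat.card_congr (Equiv.subtypeUnivEquiv h1)
  · push Not at h
    obtain ⟨y, hy, hne⟩ := h
    have : IsEmpty {i : Y →ₐ[F] Ω // ∀ y, σ (i y) = i y} := by
      refine ⟨fun i => hne ?_⟩
      have h2 : i.1.fieldRange = Y := AlgHom.fieldRange_of_normal i.1
      have h3 : y ∈ i.1.fieldRange := by rw [h2]; exact hy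
      obtain ⟨z, rfl⟩ := h3
      exact i.2 z
    exact Nat.card_of_isEmpty

end

section
variable {K : Type} [Field K] [NumberField K]

/-- the embeddings of `Y` above those of `F` -/
theorem card_fix (F Y : IntermediateField K (AlgebraicClosure K)) [NumberField F]
    (h : F ≤ Y) [FiniteDimensional F (IntermediateField.extendScalars h)]
    [Normal F (IntermediateField.extendScalars h)] (σ : Gal(AlgebraicClosure K/K))
    (τ : (F →ₐ[K] AlgebraicClosure K) → Gal(AlgebraicClosure K/K))
    (hτ : ∀ j, ∀ x : F, τ j x = j x) :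
    Nat.card {i : Y →ₐ[K] AlgebraicClosure K // perm K Y σ i = i} =
      ∑ᶠ j : {j : F →ₐ[K] AlgebraicClosure K // perm K F σ j = j},
        (open Classical in if (τ j.1)⁻¹ * σ * τ j.1 ∈ Y.fixingSubgroup then
          Module.finrank F (IntermediateField.extendScalars h) else 0) := by
  classical
  have hfinF : Finite (F →ₐ[K] AlgebraicClosure K) := inferInstance
  let _ : Fintype {j : F →ₐ[K] AlgebraicClosure K // perm K F σ j = j} := Fintype.ofFinite _
  have hperm : ∀ (Z : IntermediateField K (AlgebraicClosure K))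
      (i : Z →ₐ[K] AlgebraicClosure K), perm K Z σ i = i ↔ ∀ z, σ (i z) = i z := by
    intro Z i
    exact ⟨fun h z => DFunLike.congr_fun h z, fun h => AlgHom.ext h⟩
  let res : {i : Y →ₐ[K] AlgebraicClosure K // perm K Y σ i = i} →
      {j : F →ₐ[K] AlgebraicClosure K // perm K F σ j = j} := fun i =>
    ⟨i.1.comp (IntermediateField.inclusion h), (hperm F _).2 fun z => (hperm Y _).1 i.2 _⟩
  have hτ' : ∀ j : {j : F →ₐ[K] AlgebraicClosure K // perm K F σ j = j}, ∀ x : F,
      ((τ j.1)⁻¹ * σ * τ j.1) x = x := by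
    intro j x
    change (τ j.1)⁻¹ (σ (τ j.1 x)) = x
    rw [hτ, (hperm F _).1 j.2, ← hτ]
    exact (τ j.1).symm_apply_apply x
  have hfib : ∀ j, Nat.card {i // res i = j} =
      if (τ j.1)⁻¹ * σ * τ j.1 ∈ Y.fixingSubgroup then
        Module.finrank F (IntermediateField.extendScalars h) else 0 := by
    intro j
    have h1 := card_over F (IntermediateField.extendScalars h) ((τ j.1)⁻¹ * σ * τ j.1)
    have e1 : (∀ y ∈ IntermediateField.extendScalars h, ((τ j.1)⁻¹ * σ * τ j.1) y = y) ↔
        (τ j.1)⁻¹ * σ * τ j.1 ∈ Y.fixingSubgroup :=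
      ⟨fun h y => h y.1 y.2, fun h y hy => h ⟨y, hy⟩⟩
    rw [if_congr e1 rfl rfl] at h1
    rw [← h1]
    let E := IntermediateField.extendScalars h
    let up : {i : E →ₐ[F] AlgebraicClosure K // ∀ y, ((τ j.1)⁻¹ * σ * τ j.1) (i y) = i y} →
        {i : {i : Y →ₐ[K] AlgebraicClosure K // perm K Y σ i = i} // res i = j} := fun i =>
      ⟨⟨((τ j.1 : AlgebraicClosure K →ₐ[K] AlgebraicClosure K)).comp
        (i.1.restrictScalars K), (hperm Y _).2 fun z => by
          have h3 : (τ j.1).symm (σ (τ j.1 (i.1 z))) = i.1 z := i.2 z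
          exact (τ j.1).symm_apply_eq.1 h3⟩, by
        apply Subtype.ext
        apply AlgHom.ext
        intro x
        have h3 : i.1 (algebraMap F E x) = (x : AlgebraicClosure K) := i.1.commutes x
        change τ j.1 (i.1 (algebraMap F E x)) = j.1 x
        rw [h3, hτ]⟩
    let dn : {i : {i : Y →ₐ[K] AlgebraicClosure K // perm K Y σ i = i} // res i = j} →
        {i : E →ₐ[F] AlgebraicClosure K // ∀ y, ((τ j.1)⁻¹ * σ * τ j.1) (i y) = i y} := fun i =>
      ⟨{ toRingHom := ((τ j.1).symm : AlgebraicClosure K →+* AlgebraicClosure K).comp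
            (i.1.1 : Y →+* AlgebraicClosure K)
         commutes' := fun x => by
          have h3 : i.1.1 (IntermediateField.inclusion h x) = j.1 x :=
            DFunLike.congr_fun (congrArg Subtype.val i.2) x
          change (τ j.1).symm (i.1.1 (IntermediateField.inclusion h x)) = x
          rw [h3, ← hτ]
          exact (τ j.1).symm_apply_apply _ }, fun z => by
        have h3 : σ (i.1.1 z) = i.1.1 z := (hperm Y _).1 i.1.2 z
        change (τ j.1).symm (σ (τ j.1 ((τ j.1).symm (i.1.1 z)))) = (τ j.1).symm (i.1.1 z)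
        rw [(τ j.1).apply_symm_apply, h3]⟩
    refine (Nat.card_congr (Equiv.mk up dn (fun i => ?_) (fun i => ?_))).symm
    · apply Subtype.ext
      apply AlgHom.ext
      intro z
      exact (τ j.1).symm_apply_apply _
    · apply Subtype.ext
      apply Subtype.ext
      apply AlgHom.ext
      intro z
      exact (τ j.1).apply_symm_apply _
  rw [Nat.card_congr (Equiv.sigmaFiberEquiv res).symm]
  have hfinY : ∀ j, Finite {i // res i = j} := by
    intro j
    have hfK : FiniteDimensional K (IntermediateField.extendScalars h) :=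
      FiniteDimensional.trans K F (IntermediateField.extendScalars h)
    have hfY : FiniteDimensional K Y := hfK
    infer_instance
  rw [Nat.card_sigma, finsum_eq_sum_of_fintype]
  exact Finset.sum_congr rfl fun j _ => hfib j

end

end Pool.Agent.V5helper60.AF
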