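import Pool.Agent.V5helper60.HW.Final2

/-!
# Critical extensions for properties inherited by relations of permutation characters
-/

set_option autoImplicit false

namespace Pool.Agent.V5helper60.AF

open NumberField IsDedekindDomain IntermediateField
open Pool.Agent.R433.MD
open Pool.Agent.V5helper60.HW

section
variable {F L : Type} [Field F] [NumberField F] [Field L] [NumberField L] [Algebra F L]
  [IsGalois F L]

/-- the relation of Solomon, away from the prime numbers in `P` -/
theorem hyp_rel (F L : Type) [Field F] [NumberField F] [Field L] [NumberField L] [Algebra F L]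
    [IsGalois F L] (P : Set ℕ) :
    ∃ (m : ℕ) (S : Finset (IntermediateField F L)) (n : IntermediateField F L → ℤ), m ≠ 0 ∧
      (∀ p ∈ P, p.Prime → ¬ p ∣ m) ∧
      (∀ X ∈ S, IsCyclic X.fixingSubgroup ∨ ∃ p ∈ P, p.Prime ∧ IsHyper p X.fixingSubgroup) ∧
      ∀ g : Gal(L/F), ∑ X ∈ S, n X * fx X.fixingSubgroup g = m := by
  obtain ⟨m, S, n, hm0, hmP, hS, hsum⟩ := gal_unit
    {F' : IntermediateField F L | IsCyclic F'.fixingSubgroup ∨
      ∃ p ∈ P, p.Prime ∧ IsHyper p F'.fixingSubgroup}
    (by
      intro F hF F' _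
      have hle : (F ⊔ F').fixingSubgroup ≤ F.fixingSubgroup := by
        rw [IntermediateField.fixingSubgroup_sup]
        exact inf_le_left
      rcases hF with h | ⟨p, hp, hpp, h⟩
      · exact Or.inl (isCyclic_of_injective (Subgroup.inclusion hle)
          (Subgroup.inclusion_injective hle))
      · exact Or.inr ⟨p, hp, hpp, h.le hle⟩)
    (by
      intro F' hF σ
      have e : (F'.map (σ : L →ₐ[F] L)).fixingSubgroup =
          F'.fixingSubgroup.map (MulAut.conj σ).toMonoidHom := IsGalois.map_fixingSubgroup F' σ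
      rw [Set.mem_ofPred_eq, e]
      rcases hF with h | ⟨p, hp, hpp, h⟩
      · let e' := F'.fixingSubgroup.equivMapOfInjective (MulAut.conj σ).toMonoidHom
          (MulAut.conj σ).injective
        exact Or.inl (isCyclic_of_surjective e'.toMonoidHom e'.surjective)
      · exact Or.inr ⟨p, hp, hpp, h.conj σ⟩) P
    (by
      intro g
      have e : (IntermediateField.fixedField (Subgroup.zpowers g)).fixingSubgroup =
        Subgroup.zpowers g := IntermediateField.fixingSubgroup_fixedField _
      refine ⟨IntermediateField.fixedField (Subgroup.zpowers g), Or.inl ?_, ?_⟩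
      · rw [e]
        infer_instance
      · have h1 := fx_eq_emb (IntermediateField.fixedField (Subgroup.zpowers g)) g
        intro h
        rw [h, e, fx, Nat.cast_zero, Nat.cast_eq_zero, Nat.card_eq_zero] at h1
        rcases h1 with h1 | h1
        · refine h1.false ⟨((1 : Gal(L/F)) : Gal(L/F) ⧸ Subgroup.zpowers g), ?_⟩
          change ((g * 1 : Gal(L/F)) : Gal(L/F) ⧸ Subgroup.zpowers g) = _
          rw [QuotientGroup.eq, mul_one, mul_one]
          exact Subgroup.inv_mem _ (Subgroup.mem_zpowers g)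
        · exact h1.not_finite inferInstance)
    (by
      intro g p hp hpp
      obtain ⟨H, hH, h⟩ := hyper_count hpp g
      have e : (IntermediateField.fixedField H).fixingSubgroup = H :=
        IntermediateField.fixingSubgroup_fixedField _
      refine ⟨IntermediateField.fixedField H, Or.inr ⟨p, hp, hpp, ?_⟩, ?_⟩
      · rw [e]
        exact hH
      · have h1 := fx_eq_emb (IntermediateField.fixedField H) g
        rw [e] at h1
        rw [h1] at h
        exact_mod_cast h)
  exact ⟨m, S, n, hm0, hmP, hS, hsum⟩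

/-- a relation in a group isomorphic to the Galois group -/
theorem rel_transport {G : Type} [Group G] [Finite G] (e : Gal(L/F) ≃* G) {m : ℕ}
    {n : Subgroup G → ℤ} (hsum : ∀ g, ∑ᶠ H, n H * fx H g = (m : ℤ)) :
    ∃ (S : Finset (IntermediateField F L)) (n' : IntermediateField F L → ℤ),
      (∀ X ∈ S, n (X.fixingSubgroup.map e.toMonoidHom) ≠ 0) ∧
      ∀ g : Gal(L/F), ∑ X ∈ S, n' X * fx X.fixingSubgroup g = m := by
  classical
  let eX := IsGalois.intermediateFieldEquivSubgroup (F := F) (E := L)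
  have hfinI : Finite (IntermediateField F L) := Finite.of_equiv _ eX.toEquiv.symm
  let _ : Fintype (IntermediateField F L) := Fintype.ofFinite _
  let n' : IntermediateField F L → ℤ := fun X => n (X.fixingSubgroup.map e.toMonoidHom)
  refine ⟨Finset.univ.filter fun X => n' X ≠ 0, n', ?_, ?_⟩
  · intro X hX
    rw [Finset.mem_filter] at hX
    exact hX.2
  · intro g
    have h1 := hsum (e g)
    have h2 : ∑ X ∈ Finset.univ.filter (fun X => n' X ≠ 0), n' X * fx X.fixingSubgroup g =
        ∑ X, n' X * fx X.fixingSubgroup g := by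
      refine Finset.sum_subset (Finset.filter_subset _ _) fun X _ hX => ?_
      rw [Finset.mem_filter, not_and_not_right] at hX
      rw [hX (Finset.mem_univ X), zero_mul]
    rw [h2, ← h1, ← finsum_eq_sum_of_fintype]
    let eS : IntermediateField F L ≃ Subgroup G :=
      (eX.toEquiv.trans OrderDual.ofDual).trans (MulEquiv.mapSubgroup e).toEquiv
    have h3 : ∀ X, eS X = X.fixingSubgroup.map e.toMonoidHom := fun X => rfl
    rw [← finsum_comp_equiv eS]
    refine finsum_congr fun X => ?_
    rw [h3, fx_congr]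

end

section
variable {K Ω : Type} [Field K] [NumberField K] [Field Ω] [Algebra K Ω]

/-- if `Q` holds for the fields in a relation with the number `m` for `F`, then `Q'` holds for `F` -/
def Inh (Q Q' : IntermediateField K Ω → Prop) (m : ℕ) : Prop :=
  ∀ (F L : IntermediateField K Ω) (_ : NumberField F) (_ : NumberField (EL F L))
    (_ : IsGalois F (EL F L)) (S : Finset (IntermediateField F (EL F L)))
    (n : IntermediateField F (EL F L) → ℤ),
    (∀ g : Gal(EL F L/F), ∑ X ∈ S, n X * fx X.fixingSubgroup g = m) →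
    (∀ X ∈ S, Q (down X)) → Q' F

omit [NumberField K] in
theorem ne_bot_of {F L : IntermediateField K Ω} {X : IntermediateField F (EL F L)}
    {P : ∀ (G : Type) [Group G], Prop}
    (hinj : ∀ (G G' : Type) [Group G] [Group G'] (f : G →* G'), Function.Injective f → P G' → P G)
    (hX : P X.fixingSubgroup) (h : ¬ P Gal(EL F L/F)) : X ≠ ⊥ := by
  rintro rfl
  apply h
  have e : (⊥ : IntermediateField F (EL F L)).fixingSubgroup = ⊤ :=
    IntermediateField.fixingSubgroup_bot
  rw [e] at hX
  let eT : Gal(EL F L/F) ≃* (⊤ : Subgroup Gal(EL F L/F)) := Subgroup.topEquiv.symm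
  exact hinj _ _ eT.toMonoidHom eT.injective hX

/-- cyclic groups over a critical extension -/
theorem critR_cyclic [Normal K Ω] {Q : IntermediateField K Ω → Prop}
    (hQ : ∀ m : ℕ, m ≠ 0 → Inh Q Q m) {M : IntermediateField K Ω} (hM1 : Pers Q M)
    (hM2 : ∀ N, M < N → ¬ Pers Q N) (L : IntermediateField K Ω) [hL : FiniteDimensional K L]
    [hN : Normal K L] : IsCyclic (img M L) := by
  have hCZ : CharZero Ω := charZero_of_injective_algebraMap (algebraMap K Ω).injective
  have hGal : IsGalois K Ω := ⟨⟩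
  obtain ⟨F₁, h1, h2, h3, h4⟩ := crit_ext hM2 L
  obtain ⟨F, h5, h6, h7, h8⟩ := hM1 F₁ h1 h2
  obtain ⟨hNF, hNE, hgal⟩ := inst_EL F L
  have hnor : Normal F (EL F L) := hgal.to_normal
  obtain ⟨e⟩ := exists_gal_equiv (h3.trans h5) h6
  by_contra hnc
  have hnc' : ¬ IsCyclic Gal(EL F L/F) := fun h =>
    hnc (isCyclic_of_surjective e.toMonoidHom e.surjective)
  obtain ⟨m, S, n, hm0, -, hS, hsum⟩ := hyp_rel F (EL F L) ∅
  refine h8 (hQ m hm0 F L hNF hNE hgal S n hsum fun X hX => ?_)
  have hcyc : IsCyclic X.fixingSubgroup := by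
    rcases hS X hX with h | ⟨p, hp, -⟩
    · exact h
    · exact absurd hp (Set.notMem_empty p)
  have hne : X ≠ ⊥ := ne_bot_of (P := fun G _ => IsCyclic G)
    (fun G G' _ _ f hf h => isCyclic_of_injective f hf) hcyc hnc'
  exact h4 F h5 h6 h7 (down X) (lt_down hne) (down_le X)

/-- hyperelementary groups over a critical extension -/
theorem critR_hyper [Normal K Ω] {Q : IntermediateField K Ω → Prop}
    (hQ : Inh Q Q 1) {M : IntermediateField K Ω} (hM1 : Pers Q M)
    (hM2 : ∀ N, M < N → ¬ Pers Q N) (L : IntermediateField K Ω) [hL : FiniteDimensional K L]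
    [hN : Normal K L] : ∃ l : ℕ, l.Prime ∧ Hyp l (img M L) := by
  have hCZ : CharZero Ω := charZero_of_injective_algebraMap (algebraMap K Ω).injective
  have hGal : IsGalois K Ω := ⟨⟩
  obtain ⟨F₁, h1, h2, h3, h4⟩ := crit_ext hM2 L
  obtain ⟨F, h5, h6, h7, h8⟩ := hM1 F₁ h1 h2
  obtain ⟨hNF, hNE, hgal⟩ := inst_EL F L
  have hnor : Normal F (EL F L) := hgal.to_normal
  obtain ⟨e⟩ := exists_gal_equiv (h3.trans h5) h6
  by_contra hnc
  have hfin : Finite (Gal(EL F L/F)) := inferInstance
  have hnc' : ¬ ∃ l : ℕ, l.Prime ∧ Hyp l Gal(EL F L/F) := by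
    rintro ⟨l, hl, h⟩
    exact hnc ⟨l, hl, Hyp.of_injective e.symm.toMonoidHom e.symm.injective h⟩
  obtain ⟨m, S, n, hm0, hmP, hS, hsum⟩ := hyp_rel F (EL F L) Set.univ
  have hm1 : m = 1 := by
    by_contra hne
    obtain ⟨p, hp, hpm⟩ := Nat.exists_prime_and_dvd hne
    exact hmP p trivial hp hpm
  subst hm1
  refine h8 (hQ F L hNF hNE hgal S n hsum fun X hX => ?_)
  have hhyp : ∃ l : ℕ, l.Prime ∧ Hyp l X.fixingSubgroup := by
    rcases hS X hX with h | ⟨p, -, hp, h⟩
    · exact ⟨2, Nat.prime_two, Hyp.of_cyclic Nat.prime_two h⟩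
    · exact ⟨p, hp, hyp_of_isHyper h⟩
  have hne : X ≠ ⊥ := by
    rintro rfl
    apply hnc'
    obtain ⟨l, hl, h⟩ := hhyp
    have e : (⊥ : IntermediateField F (EL F L)).fixingSubgroup = ⊤ :=
      IntermediateField.fixingSubgroup_bot
    rw [e] at h
    let eT : Gal(EL F L/F) ≃* (⊤ : Subgroup Gal(EL F L/F)) := Subgroup.topEquiv.symm
    exact ⟨l, hl, Hyp.of_injective eT.toMonoidHom eT.injective h⟩
  exact h4 F h5 h6 h7 (down X) (lt_down hne) (down_le X)

/-- the non-cyclic case -/
theorem critR_power [Normal K Ω] {Q : IntermediateField K Ω → Prop}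
    {Q' : ℕ → IntermediateField K Ω → Prop} (hQ : ∀ m : ℕ, m ≠ 0 → Inh Q (Q' m) m)
    {M : IntermediateField K Ω} (hM2 : ∀ N, M < N → ¬ Pers Q N) {l : ℕ} (hl : l.Prime)
    (L : IntermediateField K Ω) [FiniteDimensional K L] [Normal K L] (hHyp : Hyp l (img M L))
    (hnc : ¬ IsCyclic (img M L)) : ∃ k : ℕ, Lrg M (Q' (l ^ k)) := by
  have hCZ : CharZero Ω := charZero_of_injective_algebraMap (algebraMap K Ω).injective
  have hGal : IsGalois K Ω := ⟨⟩
  obtain ⟨k, n, hn, hsum⟩ := exists_rel (img M L) l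
  obtain ⟨F₁, h1, h2, h3, h4⟩ := crit_ext hM2 L
  refine ⟨k, F₁, h1, h2, fun F h5 h6 h7 => ?_⟩
  obtain ⟨hNF, hNE, hgal⟩ := inst_EL F L
  have hnor : Normal F (EL F L) := hgal.to_normal
  obtain ⟨e⟩ := exists_gal_equiv (h3.trans h5) h6
  obtain ⟨S, n', hS, hsum'⟩ := rel_transport e hsum
  refine hQ (l ^ k) (pow_ne_zero _ hl.ne_zero) F L hNF hNE hgal S n' hsum' fun X hX => ?_
  have hne : X ≠ ⊥ := by
    rintro rfl
    have hX' := hS _ hX
    have htop : ((⊥ : IntermediateField F (EL F L)).fixingSubgroup.map e.toMonoidHom) = ⊤ := by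
      rw [IntermediateField.fixingSubgroup_bot, ← MonoidHom.range_eq_map]
      exact MonoidHom.range_eq_top.2 e.surjective
    rw [htop] at hX'
    let eT : (⊤ : Subgroup (img M L)) ≃* img M L := Subgroup.topEquiv
    rcases hn ⊤ hX' with h | ⟨p, hpl, hp, h⟩
    · exact hnc (isCyclic_of_surjective eT.toMonoidHom eT.surjective)
    · have h8 : Hyp p (⊤ : Subgroup (img M L)) := hyp_of_isHyper h
      have h9 : Hyp p (img M L) := Hyp.of_injective eT.symm.toMonoidHom eT.symm.injective h8
      exact hnc (cyclic_of_two hp hl hpl h9 hHyp)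
  exact h4 F h5 h6 h7 (down X) (lt_down hne) (down_le X)

end

end Pool.Agent.V5helper60.AF
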