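import Pool.Agent.V5helper60.AF.Tate
import Pool.Agent.V5helper60.AF.Cnt
import Pool.Agent.W353.TD.Main

/-!
# The order of the pole over a field with a cyclic extension all of whose subfields are good
-/

set_option autoImplicit false

namespace Pool.Agent.V5helper60.AF

open NumberField IsDedekindDomain Filter Topology Polynomial
open Pool.Agent.W353.EF (cone IsFrobenius IsEulerSystem LFun size perm meanAbs)
open Pool.Agent.W353.TD (rank IsPart DefectRelations)
open Pool.Agent.R433.MD (fx)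
open Pool.Agent.V5helper60.HW
open ArithmeticFunction (moebius)

/-! ### Arithmetic -/

theorem sum_mu (n : ℕ) : ∑ d ∈ n.divisors, moebius d = if n = 1 then 1 else 0 := by
  rw [← ArithmeticFunction.coe_mul_zeta_apply, ArithmeticFunction.moebius_mul_coe_zeta,
    ArithmeticFunction.one_apply]

theorem sum_mu_dvd {n : ℕ} (hn : n ≠ 0) (a : ℕ) :
    ∑ d ∈ n.divisors, (if d ∣ a then moebius d else 0) = if Nat.gcd a n = 1 then 1 else 0 := by
  rw [← sum_mu, ← Finset.sum_filter]
  refine Finset.sum_congr ?_ fun _ _ => rfl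
  ext d
  rw [Finset.mem_filter, Nat.mem_divisors, Nat.mem_divisors, Nat.dvd_gcd_iff]
  constructor
  · rintro ⟨⟨h1, -⟩, h2⟩
    exact ⟨⟨h2, h1⟩, Nat.gcd_ne_zero_right hn⟩
  · rintro ⟨⟨h1, h2⟩, -⟩
    exact ⟨⟨h2, hn⟩, h1⟩

theorem sum_mu_div {n : ℕ} (hn : n ≠ 0) :
    ∑ d ∈ n.divisors, (moebius d : ℝ) / d = (n.totient : ℝ) / n := by
  have h1 := (ArithmeticFunction.sum_eq_iff_sum_mul_moebius_eq (R := ℝ)
    (f := fun n => (n.totient : ℝ)) (g := fun n => (n : ℝ))).1 (by
      intro n _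
      beta_reduce
      exact_mod_cast Nat.sum_totient n) n (Nat.pos_of_ne_zero hn)
  rw [Nat.sum_divisorsAntidiagonal (fun a b => (moebius a : ℝ) * (b : ℝ))] at h1
  rw [← h1, Finset.sum_div]
  refine Finset.sum_congr rfl fun d hd => ?_
  have hdn := Nat.dvd_of_mem_divisors hd
  have hd0 : (d : ℝ) ≠ 0 := by
    exact_mod_cast (Nat.pos_of_mem_divisors hd).ne'
  have hn0 : (n : ℝ) ≠ 0 := by exact_mod_cast hn
  rw [Nat.cast_div hdn hd0]
  field_simp

/-! ### The size -/

section
variable {K : Type} [Field K] [NumberField K] {n : ℕ} {X : Set (MvPolynomial (Fin n) (𝓞 K))}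
  {d i N : ℕ} {F : Type} [Field F] [NumberField F] [Algebra K F]

theorem size_of_pole (hi : i ≤ 2 * d)
    (hX : ∀ᶠ v : HeightOneSpectrum (𝓞 F) in cofinite, ∃ α : Fin N → ℂ, IsFrobenius X d i v α)
    {B : HeightOneSpectrum (𝓞 F) → ℂ[X]} (hB : IsEulerSystem X d i N B) {r : ℤ}
    (h : PoleOrder i B 1 r) : Tendsto (size i B) (𝓝[>] 0) (𝓝 (r : ℝ)) := by
  obtain ⟨c, hc, hcl⟩ := (pole_iff hi hX hB 1 r).1 h
  have h1 : Tendsto (fun ε : ℝ => Real.log (1 / ε)) (𝓝[>] 0) atTop := by
    have h2 : Tendsto (fun ε : ℝ => ε⁻¹) (𝓝[>] 0) atTop := tendsto_inv_nhdsGT_zero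
    refine (Real.tendsto_log_atTop.comp h2).congr fun ε => ?_
    rw [Function.comp_apply, one_div]
  have h2 : Tendsto (fun ε : ℝ => Real.log (ε ^ r * ‖LFun B (edge i + ε)‖ ^ 1) /
      Real.log (1 / ε)) (𝓝[>] 0) (𝓝 0) :=
    ((Real.continuousAt_log hc.ne').tendsto.comp hcl).div_atTop h1
  have h3 := h2.add_const (r : ℝ)
  rw [zero_add] at h3
  refine h3.congr' ?_
  filter_upwards [h1.eventually_gt_atTop 0, self_mem_nhdsWithin,
    hcl.eventually_const_lt hc] with ε hl hε hpos
  have hε' : 0 < ε := hε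
  have hz : (0 : ℝ) < ε ^ r := zpow_pos hε' r
  rw [pow_one] at hpos ⊢
  have hL : 0 < ‖LFun B (edge i + ε)‖ := (pos_iff_pos_of_mul_pos hpos).1 hz
  unfold size
  have e2 : (i : ℂ) / 2 + 1 + (ε : ℂ) = edge i + (ε : ℂ) := rfl
  rw [e2, Real.log_mul hz.ne' hL.ne', Real.log_zpow, one_div, Real.log_inv]
  rw [one_div, Real.log_inv] at hl
  have hl' : Real.log ε ≠ 0 := by linarith
  field_simp
  ring

end

/-! ### The cyclic group -/

theorem pow_mem_iff {G : Type*} [Group G] [Finite G] {g : G} {d : ℕ} (hd : d ∣ orderOf g) (a : ℕ) :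
    g ^ a ∈ Subgroup.zpowers (g ^ d) ↔ d ∣ a := by
  constructor
  · rintro ⟨z, hz⟩
    have h1 : g ^ ((d : ℤ) * z) = g ^ (a : ℤ) := by
      rw [zpow_mul, zpow_natCast, zpow_natCast]
      exact hz
    have h2 : (orderOf g : ℤ) ∣ (a : ℤ) - (d : ℤ) * z := by
      rw [orderOf_dvd_sub_iff_zpow_eq_zpow]
      exact h1.symm
    have h3 : (d : ℤ) ∣ (a : ℤ) - (d : ℤ) * z := (Int.natCast_dvd_natCast.2 hd).trans h2
    have h4 : (d : ℤ) ∣ (a : ℤ) := (dvd_sub_left (dvd_mul_right _ _)).1 h3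
    exact_mod_cast h4
  · rintro ⟨k, rfl⟩
    rw [pow_mul]
    exact Subgroup.pow_mem _ (Subgroup.mem_zpowers _) k

section
variable {K : Type} [Field K] [NumberField K]
  {F L : IntermediateField K (AlgebraicClosure K)} [NumberField F] [NumberField (EL F L)]
  [IsGalois F (EL F L)]

/-- the field of degree `d` -/
noncomputable def Xd (g : Gal(EL F L/F)) (d : ℕ) : IntermediateField F (EL F L) :=
  IntermediateField.fixedField (Subgroup.zpowers (g ^ d))

omit [NumberField K] [IsGalois F (EL F L)] in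
theorem fix_Xd (g : Gal(EL F L/F)) (d : ℕ) :
    (Xd g d).fixingSubgroup = Subgroup.zpowers (g ^ d) :=
  IntermediateField.fixingSubgroup_fixedField _

theorem card_gal (g : Gal(EL F L/F)) (hg : ∀ x, x ∈ Subgroup.zpowers g) :
    Module.finrank F (EL F L) = orderOf g := by
  have h1 : Nat.card Gal(EL F L/F) = Module.finrank F (EL F L) := IsGalois.card_aut_eq_finrank _ _
  rw [← h1, ← Nat.card_zpowers, Subgroup.eq_top_iff' _ |>.2 hg, Subgroup.card_top]

theorem finrank_Xd (g : Gal(EL F L/F)) (hg : ∀ x, x ∈ Subgroup.zpowers g) {d : ℕ}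
    (hd : d ∈ (orderOf g).divisors) : Module.finrank F (Xd g d) = d := by
  have hd1 := Nat.dvd_of_mem_divisors hd
  have hd0 := Nat.pos_of_mem_divisors hd
  have h1 : Module.finrank (Xd g d) (EL F L) = orderOf g / d := by
    unfold Xd
    rw [IntermediateField.finrank_fixedField_eq_card, Nat.card_zpowers,
      orderOf_pow_of_dvd hd0.ne' hd1]
  have hfree : Module.Free F (Xd g d) := Module.Free.of_divisionRing _ _
  have hfree' : Module.Free (Xd g d) (EL F L) := Module.Free.of_divisionRing _ _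
  have h2 := Module.finrank_mul_finrank F (Xd g d) (EL F L)
  rw [h1, card_gal g hg] at h2
  obtain ⟨k, hk⟩ := hd1
  have h3 : 0 < orderOf g := orderOf_pos g
  rw [hk] at h2 h3
  rw [Nat.mul_div_cancel_left _ hd0] at h2
  have hk0 : 0 < k := Nat.pos_of_mul_pos_left h3
  exact Nat.eq_of_mul_eq_mul_right hk0 h2

theorem normal_Xd (g : Gal(EL F L/F)) (hg : ∀ x, x ∈ Subgroup.zpowers g) (d : ℕ) :
    Normal F (Xd g d) := by
  have hn : (Subgroup.zpowers (g ^ d)).Normal := by
    refine ⟨fun a ha b => ?_⟩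
    obtain ⟨y, rfl⟩ := hg b
    obtain ⟨z, rfl⟩ := ha
    refine ⟨z, ?_⟩
    beta_reduce
    group
  exact (IsGalois.of_fixedField_normal_subgroup (Subgroup.zpowers (g ^ d))).to_normal

omit [NumberField K] [NumberField F] [NumberField (EL F L)] [IsGalois F (EL F L)] in
theorem ext_down (X : IntermediateField F (EL F L)) :
    IntermediateField.extendScalars (le_down X) = IntermediateField.lift X := rfl

theorem card_down (g : Gal(EL F L/F)) (hg : ∀ x, x ∈ Subgroup.zpowers g)
    (σ : Gal(AlgebraicClosure K/K)) : ∃ (J : Type) (_ : Fintype J) (a : J → ℕ),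
      ∀ d ∈ (orderOf g).divisors,
        Nat.card {i : down (Xd g d) →ₐ[K] AlgebraicClosure K // perm K (down (Xd g d)) σ i = i} =
          ∑ j, if d ∣ a j then d else 0 := by
  classical
  choose τ hτ0 using fun j => Pool.Agent.W353.NF.act_trans K F F.val j
  have hτ : ∀ j, ∀ x : F, τ j x = j x := fun j x => DFunLike.congr_fun (hτ0 j) x
  have hfinF : Finite (F →ₐ[K] AlgebraicClosure K) := inferInstance
  let J : Type := {j : F →ₐ[K] AlgebraicClosure K // perm K F σ j = j}
  let _ : Fintype J := Fintype.ofFinite J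
  have hs : ∀ j : J, (τ j.1)⁻¹ * σ * τ j.1 ∈ F.fixingSubgroup := by
    intro j x
    have h1 : σ (j.1 x) = j.1 x := DFunLike.congr_fun j.2 x
    change (τ j.1).symm (σ (τ j.1 x)) = x
    rw [hτ, h1, ← hτ]
    exact (τ j.1).symm_apply_apply _
  have ha : ∀ j : J, ∃ a : ℕ, g ^ a = psi F L ⟨_, hs j⟩ := by
    intro j
    exact (mem_powers_iff_mem_zpowers.2 (hg (psi F L ⟨_, hs j⟩)))
  choose a ha using ha
  refine ⟨J, inferInstance, a, fun d hd => ?_⟩
  have hfd : FiniteDimensional F (IntermediateField.lift (Xd g d)) :=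
    Module.Finite.equiv (IntermediateField.liftAlgEquiv (Xd g d)).toLinearEquiv
  have hnm : Normal F (IntermediateField.lift (Xd g d)) := by
    have h1 := normal_Xd g hg d
    exact Normal.of_algEquiv (IntermediateField.liftAlgEquiv (Xd g d))
  have hfr : Module.finrank F (IntermediateField.lift (Xd g d)) = d := by
    rw [← (IntermediateField.liftAlgEquiv (Xd g d)).toLinearEquiv.finrank_eq]
    exact finrank_Xd g hg hd
  have h1 := @card_fix K _ _ F (down (Xd g d)) _ (le_down _) hfd hnm σ τ hτ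
  rw [h1, finsum_eq_sum_of_fintype]
  refine Finset.sum_congr rfl fun j _ => ?_
  have h2 : (τ j.1)⁻¹ * σ * τ j.1 ∈ (down (Xd g d)).fixingSubgroup ↔ d ∣ a j := by
    rw [mem_fix_down, ← pow_mem_iff (Nat.dvd_of_mem_divisors hd), ha, ← fix_Xd]
    exact ⟨fun h => h.2, fun h => ⟨hs j, h⟩⟩
  have h3 : Module.finrank F (IntermediateField.extendScalars (le_down (Xd g d))) = d := hfr
  rw [h3]
  exact if_congr h2 rfl rfl

theorem nonneg_sum (g : Gal(EL F L/F)) (hg : ∀ x, x ∈ Subgroup.zpowers g)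
    (σ : Gal(AlgebraicClosure K/K)) :
    0 ≤ ∑ d ∈ (orderOf g).divisors, ((moebius d : ℝ) / d) *
      (Nat.card {i : down (Xd g d) →ₐ[K] AlgebraicClosure K //
        perm K (down (Xd g d)) σ i = i} : ℝ) := by
  classical
  obtain ⟨J, _, a, ha⟩ := card_down g hg σ
  have hn : orderOf g ≠ 0 := (orderOf_pos g).ne'
  have h1 : ∑ d ∈ (orderOf g).divisors, ((moebius d : ℝ) / d) *
      (Nat.card {i : down (Xd g d) →ₐ[K] AlgebraicClosure K //
        perm K (down (Xd g d)) σ i = i} : ℝ) =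
      ((∑ j, ∑ d ∈ (orderOf g).divisors, (if d ∣ a j then moebius d else 0) : ℤ) : ℝ) := by
    rw [Finset.sum_comm]
    push_cast
    refine Finset.sum_congr rfl fun d hd => ?_
    rw [ha d hd]
    push_cast
    rw [Finset.mul_sum]
    refine Finset.sum_congr rfl fun j _ => ?_
    have hd0 : (d : ℝ) ≠ 0 := by exact_mod_cast (Nat.pos_of_mem_divisors hd).ne'
    split_ifs
    · field_simp
    · simp
  rw [h1]
  have h2 : ∀ j, 0 ≤ ∑ d ∈ (orderOf g).divisors, (if d ∣ a j then moebius d else 0) := by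
    intro j
    rw [sum_mu_dvd hn]
    split_ifs <;> norm_num
  exact_mod_cast Finset.sum_nonneg fun j _ => h2 j

end

end Pool.Agent.V5helper60.AF
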