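import Pool.Agent.V5helper60.AF.Cyc

/-!
# The bound for the defect over a field with a cyclic extension all of whose subfields are good
-/

set_option autoImplicit false

namespace Pool.Agent.V5helper60.AF

open NumberField IsDedekindDomain Filter Topology Polynomial
open Pool.Agent.W353.EF (cone IsFrobenius IsEulerSystem LFun size perm meanAbs)
open Pool.Agent.W353.TD (rank IsPart DefectRelations)
open Pool.Agent.R433.MD (fx)
open Pool.Agent.V5helper60.HW
open ArithmeticFunction (moebius)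

section
variable {K : Type} [Field K] [NumberField K] {n : ℕ} {X : Set (MvPolynomial (Fin n) (𝓞 K))}
  {d m N : ℕ} {V : Type} [AddCommGroup V] [Module ℚ V] [FiniteDimensional ℚ V]
  {ρ : Representation ℚ Gal(AlgebraicClosure K/K) V}

/-- the field `Y` has the defect function `x` -/
def HasDef (X : Set (MvPolynomial (Fin n) (𝓞 K))) (d m N : ℕ)
    (ρ : Representation ℚ Gal(AlgebraicClosure K/K) V)
    (Y : IntermediateField K (AlgebraicClosure K)) (x : ℝ → ℝ) : Prop :=
  ∃ (_ : NumberField Y) (B : HeightOneSpectrum (𝓞 Y) → ℂ[X]), IsEulerSystem X d (2 * m) N B ∧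
    ∀ ε, size (2 * m) B ε - rank ρ Y = x ε

theorem hasDef_of_rank (hm : m ≤ d)
    (hX : ∀ᶠ v : HeightOneSpectrum (𝓞 K) in cofinite, ∃ α : Fin N → ℂ,
      IsFrobenius X d (2 * m) v α)
    {Y : IntermediateField K (AlgebraicClosure K)} (h : RankIsOrder ρ X d (2 * m) N Y) :
    ∃ x : ℝ → ℝ, HasDef X d m N ρ Y x ∧ Tendsto x (𝓝[>] 0) (𝓝 0) := by
  obtain ⟨hnf, B, hB, hp⟩ := h
  refine ⟨fun ε => size (2 * m) B ε - rank ρ Y, ⟨hnf, B, hB, fun ε => rfl⟩, ?_⟩
  have h1 := size_of_pole (F := Y) (by omega : 2 * m ≤ 2 * d)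
    (frob_over (F := K) (Z := Y) hX) hB hp
  have h2 := h1.sub_const (rank ρ Y : ℝ)
  have e : (((rank ρ Y : ℕ) : ℤ) : ℝ) - (rank ρ Y : ℝ) = 0 := by
    push_cast
    ring
  rwa [e] at h2

variable {F L : IntermediateField K (AlgebraicClosure K)} [NumberField F]
  [NumberField (EL F L)] [IsGalois F (EL F L)]

theorem down_Xd_one (g : Gal(EL F L/F)) (hg : ∀ x, x ∈ Subgroup.zpowers g) :
    down (Xd g 1) = F := by
  have h1 : Xd g 1 = ⊥ := by
    unfold Xd
    have h2 : Subgroup.zpowers (g ^ 1) = ⊤ := by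
      rw [pow_one]
      exact (Subgroup.eq_top_iff' _).2 hg
    rw [h2, IsGalois.fixedField_top]
  rw [h1]
  apply le_antisymm _ (le_down _)
  intro x hx
  have h2 : x ∈ F ⊔ L := down_le _ hx
  have h3 : (⟨x, h2⟩ : EL F L) ∈ (⊥ : IntermediateField F (EL F L)) :=
    (IntermediateField.mem_lift (⟨x, h2⟩ : EL F L)).1 hx
  obtain ⟨y, hy⟩ := IntermediateField.mem_bot.1 h3
  have h4 : (y : AlgebraicClosure K) = x := congrArg Subtype.val hy
  rw [← h4]
  exact y.2

/-- the value of the defect predicted by the larger fields -/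
noncomputable def predicted (g : Gal(EL F L/F))
    (y : IntermediateField K (AlgebraicClosure K) → ℚ) : ℚ :=
  -∑ e ∈ (orderOf g).divisors.erase 1, (moebius e : ℚ) / e * y (down (Xd g e))

/-- **The bound for the defect.** -/
theorem cyc_bound_gen (hm : m ≤ d) (hV : IsPart X d m N ρ)
    (g : Gal(EL F L/F)) (hg : ∀ x, x ∈ Subgroup.zpowers g)
    {B : HeightOneSpectrum (𝓞 F) → ℂ[X]} (hB : IsEulerSystem X d (2 * m) N B)
    (y : IntermediateField K (AlgebraicClosure K) → ℚ)
    (hgood : ∀ Y : IntermediateField K (AlgebraicClosure K), F < Y → Y ≤ F ⊔ L →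
      ∃ x : ℝ → ℝ, HasDef X d m N ρ Y x ∧ Tendsto x (𝓝[>] 0) (𝓝 (y Y : ℝ))) {η : ℝ}
    (hη : 0 < η) :
    ∀ᶠ ε : ℝ in 𝓝[>] 0, |size (2 * m) B ε - rank ρ F - predicted g y| ≤
      ((N - Module.finrank ℚ V : ℕ) : ℝ) * (((orderOf g).totient : ℝ) / (orderOf g : ℝ)) + η := by
  classical
  set D := (orderOf g).divisors with hD
  have hn0 : orderOf g ≠ 0 := (orderOf_pos g).ne'
  have h1D : 1 ∈ D := Nat.one_mem_divisors.2 hn0
  set x₁ : ℝ → ℝ := fun ε => size (2 * m) B ε - rank ρ F with hx₁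
  have hF : HasDef X d m N ρ F x₁ := ⟨inferInstance, B, hB, fun ε => rfl⟩
  have hex : ∀ e : ℕ, ∃ x : ℝ → ℝ, (e ∈ D → HasDef X d m N ρ (down (Xd g e)) x) ∧
      (e = 1 → x = x₁) ∧ (e ∈ D → e ≠ 1 → Tendsto x (𝓝[>] 0) (𝓝 (y (down (Xd g e)) : ℝ))) := by
    intro e
    by_cases he1 : e = 1
    · subst he1
      refine ⟨x₁, fun _ => ?_, fun _ => rfl, fun _ h => absurd rfl h⟩
      rw [down_Xd_one g hg]
      exact hF
    · by_cases heD : e ∈ D
      · have hne : Xd g e ≠ ⊥ := by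
          intro h
          have h2 := finrank_Xd g hg heD
          rw [h, IntermediateField.finrank_bot] at h2
          exact he1 h2.symm
        obtain ⟨x, h3, h4⟩ := hgood (down (Xd g e)) (lt_down hne) (down_le _)
        exact ⟨x, fun _ => h3, fun h => absurd h he1, fun _ _ => h4⟩
      · exact ⟨x₁, fun h => absurd h heD, fun _ => rfl, fun h => absurd h heD⟩
  choose x hxD hx1 hx0 using hex
  -- the relation
  let l := D.card
  let E : Fin l ≃ D := D.equivFin.symm
  let Fk : Fin l → IntermediateField K (AlgebraicClosure K) := fun k => down (Xd g (E k).1)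
  have hdef : ∀ k, HasDef X d m N ρ (Fk k) (x (E k).1) := fun k => hxD _ (E k).2
  choose hnf Bk hBk hxk using hdef
  let c : ℕ → ℝ := fun e => (moebius e : ℝ) / e
  have hsumE : ∀ f : ℕ → ℝ, ∑ k, f (E k).1 = ∑ e ∈ D, f e := by
    intro f
    rw [Equiv.sum_comp E (fun e => f e.1), Finset.sum_coe_sort D f]
  have hmean : meanAbs K (fun k => Fk k) (fun k => c (E k).1) =
      ((orderOf g).totient : ℝ) / (orderOf g : ℝ) := by
    rw [mean_eq (fun k => Fk k) (fun k => c (E k).1), hsumE c, sum_mu_div hn0]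
    intro σ
    have h2 := nonneg_sum g hg σ
    rw [← hD, ← hsumE] at h2
    exact h2
  obtain ⟨n₀, hall⟩ := Pool.Agent.W353.TD.all (N - Module.finrank ℚ V)
  have hDR : DefectRelations X d m N ρ := (hall K n d m N X V ρ hm rfl hV).2.1
  have h3 := hDR.1 l Fk (fun k => c (E k).1) Bk hBk (η / 2) (by linarith)
  rw [hmean] at h3
  have hpr : (predicted g y : ℝ) =
      -∑ e ∈ D.erase 1, c e * (y (down (Xd g e)) : ℝ) := by
    unfold predicted
    push_cast
    rfl
  have h4 : Tendsto (fun ε => ∑ e ∈ D.erase 1, c e * x e ε) (𝓝[>] 0)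
      (𝓝 (-(predicted g y : ℝ))) := by
    rw [hpr, neg_neg]
    refine tendsto_finsetSum _ fun e he => ?_
    rw [Finset.mem_erase] at he
    exact (hx0 e he.2 he.1).const_mul (c e)
  have h6 : ∀ᶠ ε : ℝ in 𝓝[>] 0,
      |∑ e ∈ D.erase 1, c e * x e ε + (predicted g y : ℝ)| < η / 2 := by
    have h7 := (h4.add_const (predicted g y : ℝ)).abs
    rw [neg_add_cancel, abs_zero] at h7
    exact h7.eventually_lt_const (by linarith)
  filter_upwards [h3, h6] with ε h8 h9
  have h10 : ∑ k, c (E k).1 * (size (2 * m) (Bk k) ε - rank ρ (Fk k)) =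
      ∑ e ∈ D, c e * x e ε := by
    rw [← hsumE (fun e => c e * x e ε)]
    exact Finset.sum_congr rfl fun k _ => by rw [hxk]
  have h11 : ∑ e ∈ D, c e * x e ε = x₁ ε + ∑ e ∈ D.erase 1, c e * x e ε := by
    rw [← Finset.add_sum_erase D _ h1D, hx1 1 rfl]
    have h12 : c 1 = 1 := by simp [c]
    rw [h12, one_mul]
  rw [h10, h11] at h8
  have h13 := abs_sub (x₁ ε + ∑ e ∈ D.erase 1, c e * x e ε)
    (∑ e ∈ D.erase 1, c e * x e ε + (predicted g y : ℝ))
  have h14 : x₁ ε + ∑ e ∈ D.erase 1, c e * x e ε -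
      (∑ e ∈ D.erase 1, c e * x e ε + (predicted g y : ℝ)) = x₁ ε - predicted g y := by ring
  rw [h14] at h13
  linarith

end

end Pool.Agent.V5helper60.AF
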