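import Pool.Agent.V5helper60.AF.CycB
import Pool.Agent.V5helper60.HW.Sig2

/-!
# Critical extensions for the conjecture of Tate
-/

set_option autoImplicit false

namespace Pool.Agent.V5helper60.AF

open NumberField IsDedekindDomain Filter Topology Polynomial IntermediateField
open Pool.Agent.W353.EF (cone IsFrobenius IsEulerSystem LFun size perm meanAbs)
open Pool.Agent.W353.TD (rank IsPart DefectRelations)
open Pool.Agent.R433.MD (fx)
open Pool.Agent.V5helper60.HW

section
variable {K Ω : Type} [Field K] [Field Ω] [Algebra K Ω]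

/-- existence of critical extensions containing a given finite one -/
theorem crit_above (Q : IntermediateField K Ω → Prop) {F₀ : IntermediateField K Ω}
    (hF : FiniteDimensional K F₀) (h : ¬ Q F₀) :
    ∃ M : IntermediateField K Ω, F₀ ≤ M ∧ Pers Q M ∧ ∀ N, M < N → ¬ Pers Q N := by
  obtain ⟨M, hle, hM⟩ := zorn_le_nonempty₀ {M : IntermediateField K Ω | Pers Q M} (by
    intro c hc hchain y hy
    refine ⟨sSup c, ?_, fun z hz => le_sSup hz⟩
    intro F₁ hF₁ hfin
    have hne' : Nonempty c := ⟨⟨y, hy⟩⟩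
    rw [sSup_eq_iSup'] at hF₁
    obtain ⟨⟨M, hM⟩, hle⟩ := fin_le hfin (hchain.directed) hF₁
    obtain ⟨F, h1, h2, h3, h4⟩ := hc hM F₁ hle hfin
    exact ⟨F, h1, h2.trans (le_sSup hM), h3, h4⟩) F₀ (by
    intro F₁ hF₁ _
    exact ⟨F₀, hF₁, le_rfl, hF, h⟩)
  refine ⟨M, hle, hM.1, fun N hN hP => ?_⟩
  exact hN.not_ge (hM.2 hP hN.le)

/-- the degree of a finite Galois extension of `M` -/
theorem finrank_dvd [Normal K Ω] (M : IntermediateField K Ω) (N : IntermediateField M Ω)
    [FiniteDimensional M N] [IsGalois M N] :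
    ∃ (L : IntermediateField K Ω) (_ : Normal K L) (_ : FiniteDimensional K L),
      Module.finrank M N ∣ Nat.card (img M L) := by
  obtain ⟨L, hL1, hL2, g, hg1, hg2⟩ := gal_over M N
  refine ⟨L, hL1, hL2, ?_⟩
  have h1 := Subgroup.index_dvd_of_le hg2
  rw [Subgroup.index_ker, Subgroup.index_ker, MonoidHom.range_eq_top.2 hg1, Subgroup.card_top,
    IsGalois.card_aut_eq_finrank] at h1
  have h2 : Nat.card (rst M L).range = Nat.card (img M L) := by
    rw [MonoidHom.range_eq_top.2 (rst_surjective M L), Subgroup.card_top]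
  rwa [h2] at h1

end

theorem totient_div_le {a b : ℕ} (hb : b ≠ 0) (h : a ∣ b) :
    (b.totient : ℝ) / b ≤ (a.totient : ℝ) / a := by
  have ha : a ≠ 0 := ne_zero_of_dvd_ne_zero hb h
  have key : ∀ n : ℕ, n ≠ 0 → (n.totient : ℝ) / n = ∏ p ∈ n.primeFactors, (1 - (p : ℝ)⁻¹) := by
    intro n hn
    have h1 := Nat.totient_eq_mul_prod_factors n
    have h2 : ((n.totient : ℚ) : ℝ) = ((n * ∏ p ∈ n.primeFactors, (1 - (p : ℚ)⁻¹) : ℚ) : ℝ) := by
      rw [h1]
    push_cast at h2
    rw [h2, mul_div_cancel_left₀]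
    exact_mod_cast hn
  rw [key a ha, key b hb]
  refine Finset.prod_le_prod_of_subset_of_le_one (Nat.primeFactors_mono h hb) ?_ ?_
  · intro p hp
    have h1 : (1 : ℝ) ≤ p := by exact_mod_cast (Nat.prime_of_mem_primeFactors hp).one_le
    have := inv_le_one_of_one_le₀ h1
    linarith
  · intro p hp _
    have : (0 : ℝ) ≤ (p : ℝ)⁻¹ := by positivity
    linarith

section
variable {K : Type} [Field K] [NumberField K] {n : ℕ} (X : Set (MvPolynomial (Fin n) (𝓞 K)))
  (d m N : ℕ) {V : Type} [AddCommGroup V] [Module ℚ V]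
  (ρ : Representation ℚ Gal(AlgebraicClosure K/K) V)

/-- the size is near `q` -/
def NearOrder (F : IntermediateField K (AlgebraicClosure K)) (q δ : ℝ) : Prop :=
  ∀ (_ : NumberField F) (B : HeightOneSpectrum (𝓞 F) → ℂ[X]), IsEulerSystem X d (2 * m) N B →
    ∀ η : ℝ, 0 < η → ∀ᶠ ε : ℝ in 𝓝[>] 0, |size (2 * m) B ε - q| ≤ δ + η

end

section
variable {K : Type} [Field K] [NumberField K] {n : ℕ} {X : Set (MvPolynomial (Fin n) (𝓞 K))}
  {d m N : ℕ} {V : Type} [AddCommGroup V] [Module ℚ V] [FiniteDimensional ℚ V]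
  {ρ : Representation ℚ Gal(AlgebraicClosure K/K) V}

omit [FiniteDimensional ℚ V] in
theorem NearOrder.mono {F : IntermediateField K (AlgebraicClosure K)} {q δ δ' : ℝ}
    (h : NearOrder X d m N F q δ) (hδ : δ ≤ δ') : NearOrder X d m N F q δ' := by
  intro hF B hB η hη
  filter_upwards [h hF B hB η hη] with ε hε
  linarith

theorem frob_of_part (hV : IsPart X d m N ρ) :
    ∀ᶠ v : HeightOneSpectrum (𝓞 K) in cofinite, ∃ α : Fin N → ℂ,
      IsFrobenius X d (2 * m) v α := by
  refine hV.2.mono fun v hv => ?_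
  obtain ⟨σ, hσ⟩ := Pool.Agent.W540.BE.exists_isFrob (F := K) v
  obtain ⟨α, h, -⟩ := hv σ hσ
  exact ⟨α, h⟩

/-- the defect over the large fields -/
theorem near_gen (hm : m ≤ d) (hV : IsPart X d m N ρ)
    {Q : IntermediateField K (AlgebraicClosure K) → Prop}
    (y : IntermediateField K (AlgebraicClosure K) → ℚ)
    (hQ : ∀ Y, Q Y → ∃ x : ℝ → ℝ, HasDef X d m N ρ Y x ∧ Tendsto x (𝓝[>] 0) (𝓝 (y Y : ℝ)))
    {M : IntermediateField K (AlgebraicClosure K)} (hM2 : ∀ N, M < N → ¬ Pers Q N)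
    (L : IntermediateField K (AlgebraicClosure K)) [Normal K L] [FiniteDimensional K L]
    (hcyc : IsCyclic (img M L)) :
    Lrg M fun F => ∃ q : ℚ, ((∀ Y, y Y = 0) → q = 0) ∧ NearOrder X d m N F (rank ρ F + q)
      (((N - Module.finrank ℚ V : ℕ) : ℝ) *
        (((Nat.card (img M L)).totient : ℝ) / (Nat.card (img M L) : ℝ))) := by
  have hGal : IsGalois K (AlgebraicClosure K) := ⟨⟩
  obtain ⟨F₁, h1, h2, h3, h4⟩ := crit_ext hM2 L
  refine ⟨F₁, h1, h2, fun F h5 h6 h7 => ?_⟩
  obtain ⟨hNF, hNE, hgal⟩ := inst_EL F L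
  have hnor : Normal F (EL F L) := hgal.to_normal
  obtain ⟨e⟩ := exists_gal_equiv (h3.trans h5) h6
  have hcyc' : IsCyclic Gal(EL F L/F) := isCyclic_of_surjective e.symm.toMonoidHom e.symm.surjective
  obtain ⟨g, hg⟩ := hcyc'.exists_generator
  have hcard : orderOf g = Nat.card (img M L) := by
    rw [← Nat.card_congr e.toEquiv, ← Nat.card_zpowers, (Subgroup.eq_top_iff' _).2 hg,
      Subgroup.card_top]
  refine ⟨predicted g y, ?_, ?_⟩
  · intro hy
    unfold predicted
    rw [Finset.sum_eq_zero fun e _ => by rw [hy, mul_zero], neg_zero]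
  · intro hF B hB η hη
    have h8 := cyc_bound_gen hm hV g hg hB y (fun Y hY1 hY2 => hQ Y (h4 F h5 h6 h7 Y hY1 hY2)) hη
    rw [hcard] at h8
    filter_upwards [h8] with ε h9
    rwa [← sub_sub]

/-- finite Galois extensions of `M` -/
theorem near_ext (hm : m ≤ d) (hV : IsPart X d m N ρ)
    {Q : IntermediateField K (AlgebraicClosure K) → Prop}
    (y : IntermediateField K (AlgebraicClosure K) → ℚ)
    (hQ : ∀ Y, Q Y → ∃ x : ℝ → ℝ, HasDef X d m N ρ Y x ∧ Tendsto x (𝓝[>] 0) (𝓝 (y Y : ℝ)))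
    {M : IntermediateField K (AlgebraicClosure K)} (hM2 : ∀ N, M < N → ¬ Pers Q N)
    (hcyc : ∀ (L : IntermediateField K (AlgebraicClosure K)) [Normal K L] [FiniteDimensional K L],
      IsCyclic (img M L))
    (M' : IntermediateField M (AlgebraicClosure K)) [FiniteDimensional M M'] [IsGalois M M'] :
    Lrg M fun F => ∃ q : ℚ, ((∀ Y, y Y = 0) → q = 0) ∧ NearOrder X d m N F (rank ρ F + q)
      (((N - Module.finrank ℚ V : ℕ) : ℝ) *
        (((Module.finrank M M').totient : ℝ) / (Module.finrank M M' : ℝ))) := by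
  obtain ⟨L, hL1, hL2, hdvd⟩ := finrank_dvd M M'
  refine (near_gen hm hV y hQ hM2 L (hcyc L)).mono fun F _ h => ?_
  obtain ⟨q, h1, h2⟩ := h
  refine ⟨q, h1, h2.mono ?_⟩
  have h3 : Finite (img M L) := inferInstance
  exact mul_le_mul_of_nonneg_left (totient_div_le Nat.card_pos.ne' hdvd) (Nat.cast_nonneg _)

omit [FiniteDimensional ℚ V] in
/-- the orders near a number -/
theorem near_order (hm : m ≤ d)
    (hX : ∀ᶠ v : HeightOneSpectrum (𝓞 K) in cofinite, ∃ α : Fin N → ℂ,
      IsFrobenius X d (2 * m) v α)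
    {F : IntermediateField K (AlgebraicClosure K)} {q δ : ℝ} (h : NearOrder X d m N F q δ) {r : ℤ}
    (hr : PoleOver X d (2 * m) N F 1 r) : |(r : ℝ) - q| ≤ δ := by
  obtain ⟨hF, B, hB, hp⟩ := hr
  have h1 := size_of_pole (F := F) (by omega : 2 * m ≤ 2 * d)
    (frob_over (F := K) (Z := F) hX) hB hp
  refine le_of_forall_pos_le_add fun η hη => ?_
  exact le_of_tendsto (h1.sub_const q).abs (h hF B hB η hη)

/-- **Critical extensions for the conjecture of Tate.** -/
theorem crit_tate (hm : m ≤ d) (hV : IsPart X d m N ρ)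
    {F₀ : IntermediateField K (AlgebraicClosure K)} (hF₀ : FiniteDimensional K F₀)
    (h : ¬ RankIsOrder ρ X d (2 * m) N F₀) :
    ∃ (M : IntermediateField K (AlgebraicClosure K)) (σ : Gal(AlgebraicClosure K/K)),
      F₀ ≤ M ∧ (∀ x, x ∈ M ↔ σ x = x) ∧ Crt (RankIsOrder ρ X d (2 * m) N) M ∧
      ∀ (M' : IntermediateField M (AlgebraicClosure K)) [FiniteDimensional M M'] [IsGalois M M'],
        (Lrg M fun F => NearOrder X d m N F (rank ρ F)
          (((N - Module.finrank ℚ V : ℕ) : ℝ) *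
            (((Module.finrank M M').totient : ℝ) / (Module.finrank M M' : ℝ)))) ∧
        ((N - Module.finrank ℚ V) * (Module.finrank M M').totient < Module.finrank M M' →
          Lrg M fun F => ∀ r : ℤ, PoleOver X d (2 * m) N F 1 r → r = rank ρ F) := by
  have hX := frob_of_part hV
  have hi : 2 * m ≤ 2 * d := by omega
  obtain ⟨M, hle, hM1, hM2⟩ := crit_above (RankIsOrder ρ X d (2 * m) N) hF₀ h
  have hcyc : ∀ (L : IntermediateField K (AlgebraicClosure K)) [Normal K L]
      [FiniteDimensional K L], IsCyclic (img M L) := by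
    intro L _ _
    exact critR_cyclic (fun k hk => rank_inh ρ hi hX hk) hM1 hM2 L
  have hc : Countable (AlgebraicClosure K) := countable_closure
  obtain ⟨σ, hσ⟩ := exists_sigma' hcyc
  refine ⟨M, σ, hle, hσ, ⟨(lrg_iff _ _).2 hM1, fun N hN => (lrg_iff' _ _).2 (hM2 N hN)⟩, ?_⟩
  intro M' _ _
  have hnear : Lrg M fun F => NearOrder X d m N F (rank ρ F)
      (((N - Module.finrank ℚ V : ℕ) : ℝ) *
        (((Module.finrank M M').totient : ℝ) / (Module.finrank M M' : ℝ))) := by
    refine (near_ext hm hV (fun _ => 0) (Q := RankIsOrder ρ X d (2 * m) N) (fun Y hY => ?_) hM2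
      hcyc M').mono fun F _ hF => ?_
    · obtain ⟨x, h1, h2⟩ := hasDef_of_rank hm hX hY
      exact ⟨x, h1, by rwa [Rat.cast_zero]⟩
    · obtain ⟨q, h1, h2⟩ := hF
      rw [h1 fun _ => rfl, Rat.cast_zero, add_zero] at h2
      exact h2
  refine ⟨hnear, fun hlt => hnear.mono fun F _ hF r hr => ?_⟩
  have h1 := near_order hm hX hF hr
  have hn0 : (0 : ℝ) < (Module.finrank M M' : ℝ) := by
    exact_mod_cast lt_of_le_of_lt (Nat.zero_le _) hlt
  have h2 : ((N - Module.finrank ℚ V : ℕ) : ℝ) *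
      (((Module.finrank M M').totient : ℝ) / (Module.finrank M M' : ℝ)) < 1 := by
    rw [← mul_div_assoc, div_lt_one hn0]
    exact_mod_cast hlt
  have h3 : |((r - (rank ρ F : ℤ) : ℤ) : ℝ)| < 1 := by
    push_cast
    linarith
  have h4 : |r - (rank ρ F : ℤ)| < 1 := by exact_mod_cast h3
  rw [Int.abs_lt_one_iff] at h4
  linarith

theorem hasDef_of_order (hm : m ≤ d)
    (hX : ∀ᶠ v : HeightOneSpectrum (𝓞 K) in cofinite, ∃ α : Fin N → ℂ,
      IsFrobenius X d (2 * m) v α)
    {Y : IntermediateField K (AlgebraicClosure K)} {r : ℤ} (h : PoleOver X d (2 * m) N Y 1 r) :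
    ∃ x : ℝ → ℝ, HasDef X d m N ρ Y x ∧ Tendsto x (𝓝[>] 0) (𝓝 ((r : ℝ) - rank ρ Y)) := by
  obtain ⟨hnf, B, hB, hp⟩ := h
  refine ⟨fun ε => size (2 * m) B ε - rank ρ Y, ⟨hnf, B, hB, fun ε => rfl⟩, ?_⟩
  exact (size_of_pole (F := Y) (by omega : 2 * m ≤ 2 * d)
    (frob_over (F := K) (Z := Y) hX) hB hp).sub_const (rank ρ Y : ℝ)

/-- **Critical extensions for the existence of the order of the pole.** -/
theorem crit_order (hm : m ≤ d) (hV : IsPart X d m N ρ)
    {F₀ : IntermediateField K (AlgebraicClosure K)} (hF₀ : FiniteDimensional K F₀)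
    (h : ¬ HasOrderIn X d (2 * m) N 1 F₀) :
    ∃ (M : IntermediateField K (AlgebraicClosure K)) (l : ℕ), l.Prime ∧ F₀ ≤ M ∧
      Crt (HasOrderIn X d (2 * m) N 1) M ∧
      (∀ (M' : IntermediateField M (AlgebraicClosure K)) [FiniteDimensional M M']
        [IsGalois M M'], Hyp l (M' ≃ₐ[M] M')) ∧
      ((∃ k : ℕ, Lrg M (HasOrderIn X d (2 * m) N (l ^ k))) ∨
        ∃ σ : Gal(AlgebraicClosure K/K), (∀ x, x ∈ M ↔ σ x = x) ∧
          ∀ (M' : IntermediateField M (AlgebraicClosure K)) [FiniteDimensional M M']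
            [IsGalois M M'], Lrg M fun F => ∃ q : ℚ, NearOrder X d m N F q
              (((N - Module.finrank ℚ V : ℕ) : ℝ) *
                (((Module.finrank M M').totient : ℝ) / (Module.finrank M M' : ℝ)))) := by
  classical
  have hX := frob_of_part hV
  have hi : 2 * m ≤ 2 * d := by omega
  obtain ⟨M, hle, hM1, hM2⟩ := crit_above (HasOrderIn X d (2 * m) N 1) hF₀ h
  have himg : ∀ (L : IntermediateField K (AlgebraicClosure K)) [Normal K L]
      [FiniteDimensional K L], ∃ l : ℕ, l.Prime ∧ Hyp l (img M L) := by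
    intro L _ _
    exact critR_hyper (order_inh hi hX 1) hM1 hM2 L
  obtain ⟨l, hl, hall⟩ := one_prime himg
  refine ⟨M, l, hl, hle, ⟨(lrg_iff _ _).2 hM1, fun N hN => (lrg_iff' _ _).2 (hM2 N hN)⟩, ?_, ?_⟩
  · intro M' _ _
    obtain ⟨L, hL1, hL2, g, hg1, hg2⟩ := gal_over M M'
    exact Hyp.of_ker_le (rst M L) (rst_surjective _ _) g hg1 hg2 (hall L)
  · by_cases hc : ∀ (L : IntermediateField K (AlgebraicClosure K)) [Normal K L]
        [FiniteDimensional K L], IsCyclic (img M L)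
    · right
      have hcount : Countable (AlgebraicClosure K) := countable_closure
      obtain ⟨σ, hσ⟩ := exists_sigma' hc
      refine ⟨σ, hσ, fun M' _ _ => ?_⟩
      have hy : ∀ Y : IntermediateField K (AlgebraicClosure K), ∃ r : ℤ,
          HasOrderIn X d (2 * m) N 1 Y → PoleOver X d (2 * m) N Y 1 r := by
        intro Y
        by_cases hY : HasOrderIn X d (2 * m) N 1 Y
        · obtain ⟨r, hr⟩ := hY
          exact ⟨r, fun _ => hr⟩
        · exact ⟨0, fun h => absurd h hY⟩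
      choose y hy using hy
      refine (near_ext hm hV (fun Y => (y Y : ℚ) - rank ρ Y)
        (Q := HasOrderIn X d (2 * m) N 1) (fun Y hY => ?_) hM2 hc M').mono fun F _ hF => ?_
      · obtain ⟨x, h1, h2⟩ := hasDef_of_order (ρ := ρ) hm hX (hy Y hY)
        exact ⟨x, h1, by push_cast; exact h2⟩
      · obtain ⟨q, -, h2⟩ := hF
        exact ⟨rank ρ F + q, by push_cast; exact h2⟩
    · left
      push Not at hc
      obtain ⟨L, hN, hF, hnc⟩ := hc
      exact critR_power (Q' := fun q => HasOrderIn X d (2 * m) N q)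
        (fun k _ => order_inh hi hX k) hM2 hl L (hall L) hnc

end

end Pool.Agent.V5helper60.AF
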