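import Pool.Agent.V5helper60.AF.CritR
import Pool.Agent.R333.BR.Rank
import Pool.Agent.W353.TD.Defs

/-!
# Relations between the ranks over the intermediate fields
-/

set_option autoImplicit false

namespace Pool.Agent.V5helper60.AF

open Representation Module
open Pool.Agent.R433.MD (fx)
open Pool.Agent.V5helper60.HW

section lift
variable {Γ G : Type} [Group Γ] [Group G] (π : Γ →* G) {V : Type} [AddCommGroup V] [Module ℚ V]
  (τ : Representation ℚ Γ V)

/-- the elements fixed by the kernel -/
noncomputable def kerInv : Submodule ℚ V := invariants (τ.comp π.ker.subtype)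

theorem mem_kerInv {x : V} : x ∈ kerInv π τ ↔ ∀ σ ∈ π.ker, τ σ x = x := by
  constructor
  · intro h σ hσ
    exact h ⟨σ, hσ⟩
  · intro h σ
    exact h σ σ.2

theorem stable (σ : Γ) {x : V} (hx : x ∈ kerInv π τ) : τ σ x ∈ kerInv π τ := by
  rw [mem_kerInv] at hx ⊢
  intro g hg
  have h1 : τ (σ⁻¹ * g * σ) x = x := hx _ (by
    rw [MonoidHom.mem_ker] at hg ⊢
    rw [map_mul, map_mul, hg, mul_one, ← map_mul, inv_mul_cancel, map_one])
  have h2 : τ g (τ σ x) = τ σ (τ (σ⁻¹ * g * σ) x) := by
    rw [← Module.End.mul_apply, ← Module.End.mul_apply, ← map_mul, ← map_mul]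
    congr 2
    group
  rw [h2, h1]

/-- the action on the elements fixed by the kernel -/
noncomputable def repW : Representation ℚ Γ (kerInv π τ) where
  toFun σ := (τ σ).restrict fun _ hx => stable π τ σ hx
  map_one' := by
    ext x
    simp [LinearMap.restrict_apply]
  map_mul' g g' := by
    ext x
    simp [LinearMap.restrict_apply]

theorem repW_apply (σ : Γ) (x : kerInv π τ) : ((repW π τ σ x : kerInv π τ) : V) = τ σ x := rfl

theorem repW_congr {σ σ' : Γ} (h : π σ = π σ') : repW π τ σ = repW π τ σ' := by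
  ext x
  rw [repW_apply, repW_apply]
  have h1 : σ⁻¹ * σ' ∈ π.ker := by
    rw [MonoidHom.mem_ker, map_mul, map_inv, h, inv_mul_cancel]
  have h2 := (mem_kerInv π τ).1 x.2 _ h1
  have h3 : τ σ' x = τ σ (τ (σ⁻¹ * σ') x) := by
    rw [← Module.End.mul_apply, ← map_mul, mul_inv_cancel_left]
  rw [h3, h2]

/-- the action of the quotient -/
noncomputable def repG (hπ : Function.Surjective π) : Representation ℚ G (kerInv π τ) where
  toFun g := repW π τ (Function.surjInv hπ g)
  map_one' := by
    rw [← map_one (repW π τ)]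
    exact repW_congr π τ (by rw [Function.surjInv_eq hπ, map_one])
  map_mul' g g' := by
    rw [← map_mul (repW π τ)]
    exact repW_congr π τ (by
      rw [map_mul, Function.surjInv_eq hπ, Function.surjInv_eq hπ, Function.surjInv_eq hπ])

theorem repG_apply (hπ : Function.Surjective π) (σ : Γ) : repG π τ hπ (π σ) = repW π τ σ :=
  repW_congr π τ (Function.surjInv_eq hπ _)

theorem inv_equiv (hπ : Function.Surjective π) (H : Subgroup G) :
    Nonempty (invariants ((repG π τ hπ).comp H.subtype) ≃ₗ[ℚ]
      invariants (τ.comp (H.comap π).subtype)) := by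
  have hle : invariants (τ.comp (H.comap π).subtype) ≤ kerInv π τ := by
    intro x hx
    rw [mem_kerInv]
    intro σ hσ
    exact hx ⟨σ, by
      rw [Subgroup.mem_comap, (MonoidHom.mem_ker).1 hσ]
      exact H.one_mem⟩
  have e1 : invariants ((repG π τ hπ).comp H.subtype) =
      (invariants (τ.comp (H.comap π).subtype)).comap (kerInv π τ).subtype := by
    ext x
    rw [Submodule.mem_comap, mem_invariants, mem_invariants]
    constructor
    · rintro h ⟨σ, hσ⟩
      have h1 := h ⟨π σ, hσ⟩
      have h2 : repG π τ hπ (π σ) x = x := h1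
      rw [repG_apply] at h2
      exact congrArg Subtype.val h2
    · rintro h ⟨g, hg⟩
      obtain ⟨σ, rfl⟩ := hπ g
      have h1 : τ σ x = x := h ⟨σ, hg⟩
      change repG π τ hπ (π σ) x = x
      rw [repG_apply]
      exact Subtype.ext h1
  rw [e1]
  exact ⟨Submodule.comapSubtypeEquivOfLe hle⟩

/-- **the relation for the dimensions of the invariants** -/
theorem rel_lift [Fintype G] [FiniteDimensional ℚ V] (hπ : Function.Surjective π) {ι : Type}
    [Fintype ι] (H : ι → Subgroup G) (e : ι → ℤ) (m : ℤ)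
    (h : ∀ g : G, ∑ i, e i * fx (H i) g = m) :
    m * (finrank ℚ (invariants τ) : ℤ) =
      ∑ i, e i * (finrank ℚ (invariants (τ.comp ((H i).comap π).subtype)) : ℤ) := by
  have h1 := Pool.Agent.R333.BR.rel_fin H e m (repG π τ hπ) h
  have h2 : ∀ i, finrank ℚ (invariants ((repG π τ hπ).comp (H i).subtype)) =
      finrank ℚ (invariants (τ.comp ((H i).comap π).subtype)) := by
    intro i
    obtain ⟨e⟩ := inv_equiv π τ hπ (H i)
    exact e.finrank_eq
  have h3 : finrank ℚ (invariants (repG π τ hπ)) = finrank ℚ (invariants τ) := by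
    have hle : invariants τ ≤ kerInv π τ := fun x hx σ => hx σ
    have e1 : invariants (repG π τ hπ) = (invariants τ).comap (kerInv π τ).subtype := by
      ext x
      rw [Submodule.mem_comap, mem_invariants, mem_invariants]
      constructor
      · intro h σ
        have h2 := h (π σ)
        rw [repG_apply] at h2
        exact congrArg Subtype.val h2
      · intro h g
        obtain ⟨σ, rfl⟩ := hπ g
        rw [repG_apply]
        exact Subtype.ext (h σ)
    rw [e1]
    exact (Submodule.comapSubtypeEquivOfLe hle).finrank_eq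
  rw [h3] at h1
  rw [h1]
  exact Finset.sum_congr rfl fun i _ => by rw [h2]

end lift

section fields
variable {K : Type} [Field K] [NumberField K] {V : Type} [AddCommGroup V] [Module ℚ V]
  [FiniteDimensional ℚ V] (ρ : Representation ℚ Gal(AlgebraicClosure K/K) V)


theorem mem_fix_down {F L : IntermediateField K (AlgebraicClosure K)} [Normal F (EL F L)]
    (X : IntermediateField F (EL F L)) (σ : Gal(AlgebraicClosure K/K)) :
    σ ∈ (down X).fixingSubgroup ↔
      ∃ hσ : σ ∈ F.fixingSubgroup, psi F L ⟨σ, hσ⟩ ∈ X.fixingSubgroup := by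
  constructor
  · intro h
    have hF : σ ∈ F.fixingSubgroup := IntermediateField.fixingSubgroup_le (le_down X) h
    refine ⟨hF, ?_⟩
    rintro ⟨x, hx⟩
    apply Subtype.ext
    have h1 := psi_apply F L ⟨σ, hF⟩ x
    have h2 : (x : AlgebraicClosure K) ∈ down X := (IntermediateField.mem_lift x).2 hx
    exact h1.trans (h ⟨x, h2⟩)
  · rintro ⟨hF, h⟩
    intro y
    obtain ⟨x, hx⟩ := y
    have h2 : x ∈ F ⊔ L := down_le X hx
    have h3 : (⟨x, h2⟩ : EL F L) ∈ X :=
      (IntermediateField.mem_lift (⟨x, h2⟩ : EL F L)).1 hx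
    have h4 := h ⟨_, h3⟩
    have h5 := psi_apply F L ⟨σ, hF⟩ ⟨x, h2⟩
    have h6 : psi F L ⟨σ, hF⟩ ⟨x, h2⟩ = ⟨x, h2⟩ := h4
    rw [h6] at h5
    exact h5.symm

theorem rank_down {F L : IntermediateField K (AlgebraicClosure K)} [Normal F (EL F L)]
    (X : IntermediateField F (EL F L)) :
    Pool.Agent.W353.TD.rank ρ (down X) = finrank ℚ (invariants
      ((ρ.comp F.fixingSubgroup.subtype).comp
        (X.fixingSubgroup.comap (psi F L)).subtype)) := by
  have e : invariants (ρ.comp (down X).fixingSubgroup.subtype) = invariants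
      ((ρ.comp F.fixingSubgroup.subtype).comp
        (X.fixingSubgroup.comap (psi F L)).subtype) := by
    ext x
    rw [mem_invariants, mem_invariants]
    constructor
    · intro h y
      exact h ⟨y.1.1, (mem_fix_down X y.1.1).2 ⟨y.1.2, y.2⟩⟩
    · intro h y
      obtain ⟨hF, hX⟩ : ∃ hσ : y.1 ∈ F.fixingSubgroup, psi F L ⟨y.1, hσ⟩ ∈ X.fixingSubgroup :=
        (mem_fix_down X y.1).1 y.2
      exact h ⟨⟨y.1, hF⟩, hX⟩
  unfold Pool.Agent.W353.TD.rank
  rw [e]

/-- the relation for the ranks -/
theorem rank_rel {F L : IntermediateField K (AlgebraicClosure K)} [NumberField F]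
    [NumberField (EL F L)] [IsGalois F (EL F L)] (S : Finset (IntermediateField F (EL F L)))
    (n : IntermediateField F (EL F L) → ℤ) (m : ℕ)
    (h : ∀ g : Gal(EL F L/F), ∑ X ∈ S, n X * fx X.fixingSubgroup g = m) :
    (m : ℤ) * (Pool.Agent.W353.TD.rank ρ F : ℤ) =
      ∑ X ∈ S, n X * (Pool.Agent.W353.TD.rank ρ (down X) : ℤ) := by
  classical
  let _ : Fintype Gal(EL F L/F) := Fintype.ofFinite _
  have hGal : IsGalois K (AlgebraicClosure K) := ⟨⟩
  have h1 := rel_lift (psi F L) (ρ.comp F.fixingSubgroup.subtype) (psi_surjective F L)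
    (fun X : S => X.1.fixingSubgroup) (fun X => n X.1) (m : ℤ) (fun g => by
      rw [Finset.sum_coe_sort S (fun X => n X * fx X.fixingSubgroup g)]
      exact h g)
  have h2 : (Pool.Agent.W353.TD.rank ρ F : ℤ) =
      finrank ℚ (invariants (ρ.comp F.fixingSubgroup.subtype)) := rfl
  rw [h2, h1, ← Finset.sum_coe_sort S]
  exact Finset.sum_congr rfl fun X _ => by rw [rank_down]

end fields

end Pool.Agent.V5helper60.AF
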