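import Pool.Agent.W353.EF.Defs
import Pool.Agent.R433.MD.GalRel
import Pool.Agent.R333.BR.LRel

/-!
# Artin formalism for the L-functions of a projective variety over extension fields
-/

set_option autoImplicit false

namespace Pool.Agent.V5helper60.AF

open NumberField IsDedekindDomain Filter Topology Polynomial
open Pool.Agent.W353.EF (cone IsFrobenius IsEulerSystem LFun)
open Pool.Agent.H921R2.TatePole (nm two_le_nm nm_summable)
open Pool.Agent.R433.MD

section up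
variable {K : Type} [Field K] [NumberField K] {n : ℕ} {X : Set (MvPolynomial (Fin n) (𝓞 K))}
  {d i N : ℕ} {F Z : Type} [Field F] [NumberField F] [Algebra K F] [Field Z] [NumberField Z]
  [Algebra K Z] [Algebra F Z] [IsScalarTower K F Z]

theorem ringOfIntegers_comp : (algebraMap (𝓞 F) (𝓞 Z)).comp (algebraMap (𝓞 K) (𝓞 F)) =
    algebraMap (𝓞 K) (𝓞 Z) := by
  refine RingHom.ext fun x => RingOfIntegers.coe_injective (K := Z) ?_
  exact (IsScalarTower.algebraMap_apply K F Z (x : K)).symm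

/-- the eigenvalues of the Frobenius at a prime above `v` -/
theorem frob_up {v : HeightOneSpectrum (𝓞 F)} {α : Fin N → ℂ} (h : IsFrobenius X d i v α)
    (w : Fib Z v) : IsFrobenius X d i w.1 (fun j => α j ^ fdeg w) := by
  obtain ⟨β, h1, h2, h3⟩ := h
  have hn : Ideal.absNorm w.1.asIdeal = Ideal.absNorm v.asIdeal ^ fdeg w := nm_fib w
  refine ⟨fun k => (β k).map (fun z => z ^ fdeg w), ?_, ?_, ?_⟩
  · simp only [h1, Multiset.map_map]
    rfl
  · intro k z hz
    obtain ⟨y, hy, rfl⟩ := Multiset.mem_map.1 hz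
    rw [norm_pow, h2 k y hy, hn]
    push_cast
    rw [← Real.rpow_natCast, ← Real.rpow_natCast, ← Real.rpow_mul (by positivity),
      ← Real.rpow_mul (by positivity), mul_comm]
  · intro κ _ _ φ e hφ hc
    have hk : RingHom.ker (φ.comp (algebraMap (𝓞 F) (𝓞 Z))) = v.asIdeal := by
      rw [← RingHom.comap_ker, hφ, fib_le w]
    have h4 := h3 κ (φ.comp (algebraMap (𝓞 F) (𝓞 Z))) (fdeg w * e) hk (by rw [hc, hn, pow_mul])
    rw [RingHom.comp_assoc, ringOfIntegers_comp] at h4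
    rw [h4, hn]
    push_cast
    rw [pow_mul]
    congr 1
    refine Finset.sum_congr rfl fun k _ => ?_
    rw [Multiset.map_map]
    congr 3
    funext z
    rw [Function.comp_apply, pow_mul]

/-- almost all primes of `Z` lie over a given cofinite set -/
theorem und_cofinite {P : HeightOneSpectrum (𝓞 F) → Prop} (h : ∀ᶠ v in cofinite, P v) :
    ∀ᶠ w : HeightOneSpectrum (𝓞 Z) in cofinite, P (und w) := by
  have h1 : Tendsto (und (K := F) : HeightOneSpectrum (𝓞 Z) → HeightOneSpectrum (𝓞 F))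
      cofinite cofinite := by
    refine Tendsto.cofinite_of_finite_preimage_singleton fun v => ?_
    have h2 : Finite (Fib Z v) := inferInstance
    exact Set.finite_coe_iff.1 h2
  exact h1.eventually h

theorem frob_over (h : ∀ᶠ v : HeightOneSpectrum (𝓞 F) in cofinite,
    ∃ α : Fin N → ℂ, IsFrobenius X d i v α) :
    ∀ᶠ w : HeightOneSpectrum (𝓞 Z) in cofinite, ∃ α : Fin N → ℂ, IsFrobenius X d i w α := by
  filter_upwards [und_cofinite (Z := Z) h] with w hw
  obtain ⟨α, hα⟩ := hw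
  exact ⟨_, frob_up hα ⟨w, rfl⟩⟩

end up

section sys
variable {K : Type} [Field K] [NumberField K] {n : ℕ} {X : Set (MvPolynomial (Fin n) (𝓞 K))}
  {d i N : ℕ} {F : Type} [Field F] [NumberField F] [Algebra K F]

/-- the edge point -/
noncomputable def edge (i : ℕ) : ℂ := (i : ℂ) / 2 + 1

theorem edge_re (i : ℕ) : (edge i).re = (i : ℝ) / 2 + 1 := by
  unfold edge
  simp

theorem norm_q (v : HeightOneSpectrum (𝓞 F)) (z : ℂ) :
    ‖((Ideal.absNorm v.asIdeal : ℕ) : ℂ) ^ z‖ = (Ideal.absNorm v.asIdeal : ℝ) ^ z.re :=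
  Complex.norm_natCast_cpow_of_pos (nm_pos v) z

theorem one_lt_q (v : HeightOneSpectrum (𝓞 F)) : (1 : ℝ) < (Ideal.absNorm v.asIdeal : ℝ) :=
  Pool.Agent.W353.PV.one_lt_norm v

theorem frob_norm {v : HeightOneSpectrum (𝓞 F)} {α : Fin N → ℂ} (h : IsFrobenius X d i v α)
    (j : Fin N) : ‖α j‖ = (Ideal.absNorm v.asIdeal : ℝ) ^ ((i : ℝ) / 2) :=
  Pool.Agent.W353.PV.Eig.norm (X := X) (d := d) h j

theorem norm_term {v : HeightOneSpectrum (𝓞 F)} {α : Fin N → ℂ} (h : IsFrobenius X d i v α)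
    (j : Fin N) (s : ℂ) : ‖α j * ((Ideal.absNorm v.asIdeal : ℕ) : ℂ) ^ (-s)‖ =
      (Ideal.absNorm v.asIdeal : ℝ) ^ (-(s.re - (i : ℝ) / 2)) := by
  have h0 : (0 : ℝ) < (Ideal.absNorm v.asIdeal : ℝ) := by linarith [one_lt_q v]
  rw [norm_mul, frob_norm h j, norm_q, ← Real.rpow_add h0]
  congr 1
  rw [Complex.neg_re]
  ring

theorem good_ne {v : HeightOneSpectrum (𝓞 F)} {α : Fin N → ℂ} (h : IsFrobenius X d i v α)
    {s : ℂ} (hs : (i : ℝ) / 2 < s.re) :
    ∏ j, (1 - α j * ((Ideal.absNorm v.asIdeal : ℕ) : ℂ) ^ (-s)) ≠ 0 := by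
  refine Finset.prod_ne_zero_iff.2 fun j _ h0 => ?_
  have h1 := norm_term h j s
  rw [← sub_eq_zero.1 h0, norm_one] at h1
  have h2 : (Ideal.absNorm v.asIdeal : ℝ) ^ (-(s.re - (i : ℝ) / 2)) < 1 :=
    Real.rpow_lt_one_of_one_lt_of_neg (one_lt_q v) (by linarith)
  linarith

theorem exp_le {N : ℕ} {r : ℝ} (h0 : 0 ≤ r) (h1 : r ≤ 1) :
    Real.exp (N * r) - 1 ≤ (Real.exp N - 1) * r := by
  have h2 := convexOn_exp.2 (Set.mem_univ (0 : ℝ)) (Set.mem_univ (N : ℝ)) (sub_nonneg.2 h1) h0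
    (by ring)
  rw [smul_eq_mul, smul_eq_mul, smul_eq_mul, smul_eq_mul, mul_zero, zero_add, Real.exp_zero,
    mul_one, mul_comm r] at h2
  linarith

theorem good_sub {v : HeightOneSpectrum (𝓞 F)} {α : Fin N → ℂ} (h : IsFrobenius X d i v α)
    {s : ℂ} (hs : (i : ℝ) / 2 < s.re) :
    ‖∏ j, (1 - α j * ((Ideal.absNorm v.asIdeal : ℕ) : ℂ) ^ (-s)) - 1‖ ≤
      (Real.exp N - 1) * (Ideal.absNorm v.asIdeal : ℝ) ^ (-(s.re - (i : ℝ) / 2)) := by
  have h1 := Finset.norm_prod_one_add_sub_one_le (Finset.univ : Finset (Fin N))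
    (fun j => -(α j * ((Ideal.absNorm v.asIdeal : ℕ) : ℂ) ^ (-s)))
  simp only [norm_neg, norm_term h, ← sub_eq_add_neg, Finset.sum_const, Finset.card_univ,
    Fintype.card_fin, nsmul_eq_mul] at h1
  refine h1.trans (exp_le (by positivity) ?_)
  exact Real.rpow_le_one_of_one_le_of_nonpos (one_lt_q v).le (by linarith)

/-- the factors do not vanish near the edge point -/
theorem near_ne {B : HeightOneSpectrum (𝓞 F) → ℂ[X]} (hB : IsEulerSystem X d i N B) :
    ∀ᶠ s in 𝓝 (edge i), ∀ w, (B w).eval (((Ideal.absNorm w.asIdeal : ℕ) : ℂ) ^ (-s)) ≠ 0 := by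
  have hfin := hB.1
  rw [Filter.eventually_cofinite] at hfin
  have h1 : ∀ᶠ s in 𝓝 (edge i), (i : ℝ) / 2 < s.re :=
    Complex.continuous_re.continuousAt.eventually_const_lt (by rw [edge_re]; linarith)
  have h2 : ∀ᶠ s in 𝓝 (edge i), ∀ w ∈ hfin.toFinset,
      (B w).eval (((Ideal.absNorm w.asIdeal : ℕ) : ℂ) ^ (-s)) ≠ 0 := by
    rw [Filter.eventually_all_finset]
    intro w _
    have h0 : ((Ideal.absNorm w.asIdeal : ℕ) : ℂ) ≠ 0 := by exact_mod_cast (nm_pos w).ne'
    have hc : Continuous fun s : ℂ => (B w).eval (((Ideal.absNorm w.asIdeal : ℕ) : ℂ) ^ (-s)) :=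
      (B w).continuous.comp (continuous_neg.const_cpow (Or.inl h0))
    exact hc.continuousAt.eventually_ne (hB.2 w)
  filter_upwards [h1, h2] with s hs1 hs2 w
  by_cases hw : w ∈ hfin.toFinset
  · exact hs2 w hw
  · rw [Set.Finite.mem_toFinset, Set.mem_ofPred_eq, not_not] at hw
    obtain ⟨α, hα, he⟩ := hw
    rw [he]
    exact good_ne hα hs1

/-- the Euler product converges, and is not zero -/
theorem hasProd_B {B : HeightOneSpectrum (𝓞 F) → ℂ[X]} (hB : IsEulerSystem X d i N B) {s : ℂ}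
    (hs : (i : ℝ) / 2 + 1 < s.re)
    (hne : ∀ w, (B w).eval (((Ideal.absNorm w.asIdeal : ℕ) : ℂ) ^ (-s)) ≠ 0) :
    HasProd (fun w => ((B w).eval (((Ideal.absNorm w.asIdeal : ℕ) : ℂ) ^ (-s)))⁻¹) (LFun B s) ∧
      LFun B s ≠ 0 := by
  have hsum : Summable fun w : HeightOneSpectrum (𝓞 F) =>
      (B w).eval (((Ideal.absNorm w.asIdeal : ℕ) : ℂ) ^ (-s)) - 1 := by
    have h1 : Summable fun v : HeightOneSpectrum (𝓞 F) =>
        (Real.exp N - 1) * (nm v : ℝ) ^ (-(s.re - (i : ℝ) / 2)) :=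
      (nm_summable (by linarith)).mul_left _
    refine Summable.of_norm_bounded_eventually h1 ?_
    filter_upwards [hB.1] with v hv
    obtain ⟨α, hα, he⟩ := hv
    rw [he]
    exact good_sub hα (by linarith)
  have h1 := Complex.summable_log_one_add_of_summable hsum
  have h2 := h1.neg.hasSum.cexp
  have h3 : (Complex.exp ∘ fun w : HeightOneSpectrum (𝓞 F) => -Complex.log
      (1 + ((B w).eval (((Ideal.absNorm w.asIdeal : ℕ) : ℂ) ^ (-s)) - 1))) =
      fun w => ((B w).eval (((Ideal.absNorm w.asIdeal : ℕ) : ℂ) ^ (-s)))⁻¹ := by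
    funext v
    have h4 : (1 : ℂ) + ((B v).eval (((Ideal.absNorm v.asIdeal : ℕ) : ℂ) ^ (-s)) - 1) =
      (B v).eval (((Ideal.absNorm v.asIdeal : ℕ) : ℂ) ^ (-s)) := by ring
    rw [Function.comp_apply, h4, Complex.exp_neg, Complex.exp_log (hne v)]
  rw [h3] at h2
  have h4 : LFun B s = _ := h2.tprod_eq
  rw [h4]
  exact ⟨h2, Complex.exp_ne_zero _⟩

/-- there are systems of Euler factors -/
theorem exists_sys (h : ∀ᶠ v : HeightOneSpectrum (𝓞 F) in cofinite,
    ∃ α : Fin N → ℂ, IsFrobenius X d i v α) :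
    ∃ B : HeightOneSpectrum (𝓞 F) → ℂ[X], IsEulerSystem X d i N B := by
  classical
  refine ⟨fun v => if hv : ∃ α : Fin N → ℂ, IsFrobenius X d i v α then
    ∏ j, (1 - C (hv.choose j) * Polynomial.X) else 1, ?_, ?_⟩
  · filter_upwards [h] with v hv
    beta_reduce
    refine ⟨hv.choose, hv.choose_spec, fun z => ?_⟩
    rw [dif_pos hv, eval_prod]
    simp
  · intro v
    beta_reduce
    by_cases hv : ∃ α : Fin N → ℂ, IsFrobenius X d i v α
    · rw [dif_pos hv, eval_prod]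
      have h1 := good_ne hv.choose_spec (s := edge i) (by rw [edge_re]; linarith)
      simpa [edge] using h1
    · rw [dif_neg hv]
      simp

end sys

end Pool.Agent.V5helper60.AF
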