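import Pool.Agent.V5helper60.AF.RelL

/-!
# The order of the pole at the edge
-/

set_option autoImplicit false

namespace Pool.Agent.V5helper60.AF

open NumberField IsDedekindDomain Filter Topology Polynomial ComplexConjugate
open Pool.Agent.W353.EF (cone IsFrobenius IsEulerSystem LFun)
open Pool.Agent.H921R2.TatePole (nm two_le_nm nm_summable)
open Pool.Agent.R433.MD Pool.Agent.H341R2.EC

/-- `ε^r L(i/2 + 1 + ε)^q` has a finite nonzero limit for `ε → 0+`: the pole at `i/2 + 1` has the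
order `r/q` -/
def PoleOrder {F : Type} [Field F] [NumberField F] (i : ℕ) (B : HeightOneSpectrum (𝓞 F) → ℂ[X])
    (q : ℕ) (r : ℤ) : Prop :=
  ∃ c : ℂ, c ≠ 0 ∧ Tendsto (fun ε : ℝ => (ε : ℂ) ^ r * LFun B ((i : ℂ) / 2 + 1 + ε) ^ q)
    (𝓝[>] 0) (𝓝 c)

section
variable {K : Type} [Field K] [NumberField K] {n : ℕ} {X : Set (MvPolynomial (Fin n) (𝓞 K))}
  {d i N : ℕ} {F : Type} [Field F] [NumberField F] [Algebra K F]

/-- the good factors are real and positive on the real axis -/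
theorem good_pos (hi : i ≤ 2 * d) {v : HeightOneSpectrum (𝓞 F)} {α : Fin N → ℂ}
    (h : IsFrobenius X d i v α) {σ : ℝ} (hs : (i : ℝ) / 2 < σ) :
    ∃ p : ℝ, 0 < p ∧
      ∏ j, (1 - α j * ((Ideal.absNorm v.asIdeal : ℕ) : ℂ) ^ (-(σ : ℂ))) = (p : ℂ) := by
  set t : ℝ := (Ideal.absNorm v.asIdeal : ℝ) ^ (-σ) with ht
  have ht' : ((Ideal.absNorm v.asIdeal : ℕ) : ℂ) ^ (-(σ : ℂ)) = (t : ℂ) := by
    rw [ht, Complex.ofReal_cpow (Nat.cast_nonneg _)]
    push_cast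
    rfl
  have hn : ∀ j, ‖-(α j * (t : ℂ))‖ < 1 := by
    intro j
    rw [norm_neg, ← ht', norm_term h j, Complex.ofReal_re]
    exact Real.rpow_lt_one_of_one_lt_of_neg (one_lt_q v) (by linarith)
  have hsl : ∀ j, 1 - α j * (t : ℂ) ∈ Complex.slitPlane := fun j => by
    rw [sub_eq_add_neg]
    exact Complex.mem_slitPlane_of_norm_lt_one (hn j)
  have hne : ∀ j, 1 - α j * (t : ℂ) ≠ 0 := fun j => Complex.slitPlane_ne_zero (hsl j)
  set S : ℂ := ∑ j, Complex.log (1 - α j * (t : ℂ)) with hS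
  have hexp : Complex.exp S = ∏ j, (1 - α j * (t : ℂ)) := by
    rw [hS, Complex.exp_sum]
    exact Finset.prod_congr rfl fun j _ => Complex.exp_log (hne j)
  have hconj : conj S = S := by
    have h1 : Finset.univ.val.map (fun j => conj (α j)) = Finset.univ.val.map α :=
      Pool.Agent.W353.PV.Eig.unique' (X := X) (d := d) hi
        (Pool.Agent.W353.PV.Eig.conj (X := X) (d := d) h) h
    have h2 := congrArg (fun s : Multiset ℂ =>
      (s.map fun a => Complex.log (1 - a * (t : ℂ))).sum) h1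
    simp only [Multiset.map_map] at h2
    have h3 : ∑ j, Complex.log (1 - conj (α j) * (t : ℂ)) =
        ∑ j, Complex.log (1 - α j * (t : ℂ)) := h2
    rw [hS, map_sum, ← h3]
    refine Finset.sum_congr rfl fun j _ => ?_
    rw [← Complex.log_conj _ (Complex.mem_slitPlane_iff_arg.1 (hsl j)).1]
    simp
  obtain ⟨S', hS'⟩ := Complex.conj_eq_iff_real.1 hconj
  refine ⟨Real.exp S', Real.exp_pos _, ?_⟩
  rw [ht', ← hexp, hS', Complex.ofReal_exp]

/-- the Euler product of the good factors is real and positive -/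
theorem LFun_pos (hi : i ≤ 2 * d) {B : HeightOneSpectrum (𝓞 F) → ℂ[X]}
    (hB : IsEulerSystem X d i N B)
    (hB' : ∀ w, (∃ α : Fin N → ℂ, IsFrobenius X d i w α ∧
      ∀ z : ℂ, (B w).eval z = ∏ j, (1 - α j * z)) ∨ B w = 1)
    {σ : ℝ} (hs : (i : ℝ) / 2 + 1 < σ) : ∃ p : ℝ, 0 < p ∧ LFun B (σ : ℂ) = (p : ℂ) := by
  have hfac : ∀ w, ∃ p : ℝ, 0 < p ∧
      (B w).eval (((Ideal.absNorm w.asIdeal : ℕ) : ℂ) ^ (-(σ : ℂ))) = (p : ℂ) := by
    intro w
    rcases hB' w with ⟨α, hα, he⟩ | h1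
    · rw [he]
      exact good_pos hi hα (by linarith)
    · exact ⟨1, one_pos, by rw [h1]; simp⟩
  choose p hp hpe using hfac
  have hne : ∀ w, (B w).eval (((Ideal.absNorm w.asIdeal : ℕ) : ℂ) ^ (-(σ : ℂ))) ≠ 0 := fun w => by
    rw [hpe]
    exact_mod_cast (hp w).ne'
  obtain ⟨h1, h2⟩ := hasProd_B hB (s := (σ : ℂ)) (by rw [Complex.ofReal_re]; exact hs) hne
  have hcl : IsClosed {z : ℂ | z.im = 0 ∧ 0 ≤ z.re} :=
    (isClosed_eq Complex.continuous_im continuous_const).inter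
      (isClosed_le continuous_const Complex.continuous_re)
  have hmem : LFun B (σ : ℂ) ∈ {z : ℂ | z.im = 0 ∧ 0 ≤ z.re} := by
    refine hcl.mem_of_tendsto h1 (Eventually.of_forall fun s => ?_)
    have e1 : ∏ w ∈ s, ((B w).eval (((Ideal.absNorm w.asIdeal : ℕ) : ℂ) ^ (-(σ : ℂ))))⁻¹ =
        ((∏ w ∈ s, (p w)⁻¹ : ℝ) : ℂ) := by
      push_cast
      exact Finset.prod_congr rfl fun w _ => by rw [hpe]
    rw [e1]
    exact ⟨Complex.ofReal_im _, by
      rw [Complex.ofReal_re]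
      exact Finset.prod_nonneg fun w _ => inv_nonneg.2 (hp w).le⟩
  obtain ⟨him, hre⟩ := hmem
  have e2 : LFun B (σ : ℂ) = (((LFun B (σ : ℂ)).re : ℝ) : ℂ) :=
    Complex.ext (by simp) (by simp [him])
  refine ⟨(LFun B (σ : ℂ)).re, lt_of_le_of_ne hre fun h => h2 ?_, e2⟩
  rw [e2, ← h, Complex.ofReal_zero]

/-- real points near the edge -/
theorem tendsto_edge (i : ℕ) : Tendsto (fun ε : ℝ => edge i + (ε : ℂ)) (𝓝[>] 0) (𝓝 (edge i)) := by
  have h1 : Tendsto (fun ε : ℝ => edge i + (ε : ℂ)) (𝓝 0) (𝓝 (edge i + ((0 : ℝ) : ℂ))) :=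
    (continuous_const.add Complex.continuous_ofReal).tendsto 0
  rw [Complex.ofReal_zero, add_zero] at h1
  exact h1.mono_left nhdsWithin_le_nhds

theorem edge_lt {i : ℕ} {ε : ℝ} (h : 0 < ε) : (i : ℝ) / 2 + 1 < (edge i + (ε : ℂ)).re := by
  rw [Complex.add_re, edge_re, Complex.ofReal_re]
  linarith

/-- statements about the points near the edge, on the right -/
theorem near_right {i : ℕ} {P : ℂ → Prop} (h : ∀ᶠ s in 𝓝 (edge i), (i : ℝ) / 2 + 1 < s.re → P s) :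
    ∀ᶠ ε : ℝ in 𝓝[>] 0, P (edge i + (ε : ℂ)) := by
  filter_upwards [(tendsto_edge i).eventually h, self_mem_nhdsWithin] with ε h1 h2
  exact h1 (edge_lt h2)

/-- two systems of Euler factors -/
theorem two_sys (hi : i ≤ 2 * d)
    (hX : ∀ᶠ v : HeightOneSpectrum (𝓞 F) in cofinite, ∃ α : Fin N → ℂ, IsFrobenius X d i v α)
    {B B' : HeightOneSpectrum (𝓞 F) → ℂ[X]} (hB : IsEulerSystem X d i N B)
    (hB' : IsEulerSystem X d i N B') :
    ∃ R : ℂ → ℂ, AnalyticAt ℂ R (edge i) ∧ R (edge i) ≠ 0 ∧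
      ∀ᶠ s in 𝓝 (edge i), (i : ℝ) / 2 + 1 < s.re → LFun B s = R s * LFun B' s := by
  obtain ⟨R, h1, h2, h3⟩ := rel_near (F := F) (D := 1) hi (fun _ : Bool => Ext2.self K F)
    (fun j => if j then 1 else 0) (fun j => if j then 0 else 1) one_ne_zero (by
      intro k _ _ φ _
      simp) hX
    (fun j => if j then B else B') (by
      rintro (_ | _)
      · exact hB'
      · exact hB)
  refine ⟨R, h1, h2, ?_⟩
  filter_upwards [h3] with s hs hre
  have h4 : LFun B s ^ 1 * LFun B' s ^ 0 = R s * (LFun B s ^ 0 * LFun B' s ^ 1) := by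
    have h5 := hs hre
    rw [Fintype.prod_bool, Fintype.prod_bool] at h5
    exact h5
  rwa [pow_one, pow_zero, mul_one, pow_zero, one_mul, pow_one] at h4

/-- the natural system of Euler factors -/
theorem exists_nat_sys (h : ∀ᶠ v : HeightOneSpectrum (𝓞 F) in cofinite,
    ∃ α : Fin N → ℂ, IsFrobenius X d i v α) :
    ∃ B : HeightOneSpectrum (𝓞 F) → ℂ[X], IsEulerSystem X d i N B ∧
      ∀ w, (∃ α : Fin N → ℂ, IsFrobenius X d i w α ∧
        ∀ z : ℂ, (B w).eval z = ∏ j, (1 - α j * z)) ∨ B w = 1 := by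
  classical
  have hgood : ∀ v : HeightOneSpectrum (𝓞 F), (∃ α : Fin N → ℂ, IsFrobenius X d i v α) →
      ∃ P : ℂ[X], ∃ α : Fin N → ℂ, IsFrobenius X d i v α ∧
        ∀ z : ℂ, P.eval z = ∏ j, (1 - α j * z) := by
    rintro v ⟨α, hα⟩
    refine ⟨∏ j, (1 - C (α j) * Polynomial.X), α, hα, fun z => ?_⟩
    rw [eval_prod]
    simp
  choose P hP using hgood
  refine ⟨fun v => if hv : ∃ α : Fin N → ℂ, IsFrobenius X d i v α then P v hv else 1, ⟨?_, ?_⟩,
    ?_⟩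
  · filter_upwards [h] with v hv
    beta_reduce
    rw [dif_pos hv]
    exact hP v hv
  · intro v
    beta_reduce
    by_cases hv : ∃ α : Fin N → ℂ, IsFrobenius X d i v α
    · rw [dif_pos hv]
      obtain ⟨α, hα, he⟩ := hP v hv
      rw [he]
      have h1 := good_ne hα (s := edge i) (by rw [edge_re]; linarith)
      exact h1
    · rw [dif_neg hv]
      simp
  · intro v
    beta_reduce
    by_cases hv : ∃ α : Fin N → ℂ, IsFrobenius X d i v α
    · rw [dif_pos hv]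
      exact Or.inl (hP v hv)
    · rw [dif_neg hv]
      exact Or.inr rfl

theorem norm_zpow_ofReal {ε : ℝ} (h : 0 < ε) (r : ℤ) : ‖(ε : ℂ) ^ r‖ = ε ^ r := by
  rw [norm_zpow, Complex.norm_real, Real.norm_of_nonneg h.le]

/-- the absolute values suffice -/
theorem pole_iff (hi : i ≤ 2 * d)
    (hX : ∀ᶠ v : HeightOneSpectrum (𝓞 F) in cofinite, ∃ α : Fin N → ℂ, IsFrobenius X d i v α)
    {B : HeightOneSpectrum (𝓞 F) → ℂ[X]} (hB : IsEulerSystem X d i N B) (q : ℕ) (r : ℤ) :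
    PoleOrder i B q r ↔ ∃ c : ℝ, 0 < c ∧
      Tendsto (fun ε : ℝ => ε ^ r * ‖LFun B (edge i + ε)‖ ^ q) (𝓝[>] 0) (𝓝 c) := by
  constructor
  · rintro ⟨c, hc, h⟩
    refine ⟨‖c‖, norm_pos_iff.2 hc, h.norm.congr' ?_⟩
    filter_upwards [self_mem_nhdsWithin] with ε hε
    rw [norm_mul, norm_pow, norm_zpow_ofReal hε]
    rfl
  · rintro ⟨c, hc, h⟩
    obtain ⟨B', hB', hnat⟩ := exists_nat_sys (F := F) hX
    obtain ⟨R, hR1, hR2, hR3⟩ := two_sys hi hX hB hB'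
    have hR := near_right hR3
    have hRt : Tendsto (fun ε : ℝ => R (edge i + (ε : ℂ))) (𝓝[>] 0) (𝓝 (R (edge i))) :=
      hR1.continuousAt.tendsto.comp (tendsto_edge i)
    have hRn : ((‖R (edge i)‖ : ℝ) : ℂ) ≠ 0 := by
      exact_mod_cast (norm_pos_iff.2 hR2).ne'
    refine ⟨(R (edge i) / ((‖R (edge i)‖ : ℝ) : ℂ)) ^ q * (c : ℂ),
      mul_ne_zero (pow_ne_zero _ (div_ne_zero hR2 hRn)) (by exact_mod_cast hc.ne'), ?_⟩
    have h1 : Tendsto (fun ε : ℝ => (R (edge i + (ε : ℂ)) /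
        ((‖R (edge i + (ε : ℂ))‖ : ℝ) : ℂ)) ^ q *
          ((ε ^ r * ‖LFun B (edge i + ε)‖ ^ q : ℝ) : ℂ)) (𝓝[>] 0)
        (𝓝 ((R (edge i) / ((‖R (edge i)‖ : ℝ) : ℂ)) ^ q * (c : ℂ))) :=
      ((hRt.div ((Complex.continuous_ofReal.tendsto _).comp hRt.norm) hRn).pow q).mul
        ((Complex.continuous_ofReal.tendsto _).comp h)
    refine h1.congr' ?_
    filter_upwards [hR, hRt.eventually_ne hR2, self_mem_nhdsWithin] with ε h2 h3 hε
    have hε' : 0 < ε := hε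
    obtain ⟨p, hp, hpe⟩ := LFun_pos hi hB' hnat (σ := (i : ℝ) / 2 + 1 + ε) (by linarith)
    have e1 : (((i : ℝ) / 2 + 1 + ε : ℝ) : ℂ) = edge i + (ε : ℂ) := by
      unfold edge
      push_cast
      ring
    rw [e1] at hpe
    have e2 : (i : ℂ) / 2 + 1 + (ε : ℂ) = edge i + (ε : ℂ) := rfl
    rw [e2, h2, hpe, norm_mul, Complex.norm_real, Real.norm_of_nonneg hp.le]
    have h4 : ((‖R (edge i + (ε : ℂ))‖ : ℝ) : ℂ) ≠ 0 := by
      exact_mod_cast (norm_pos_iff.2 h3).ne'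
    push_cast
    rw [div_pow, mul_pow, mul_pow]
    field_simp

variable {L : Type} [Field L] [NumberField L] [Algebra F L] [IsGalois F L]

omit [NumberField F] [IsGalois F L] [NumberField L] [Field F] [Field L] [Algebra F L] in
theorem zpow_sum' {ι : Type} [Fintype ι] {ε : ℝ} (h : ε ≠ 0) (f : ι → ℤ) :
    ε ^ (∑ j, f j) = ∏ j, ε ^ f j := by
  classical
  induction (Finset.univ : Finset ι) using Finset.induction_on with
  | empty => simp
  | insert a s ha ih => rw [Finset.sum_insert ha, Finset.prod_insert ha, zpow_add₀ h, ih]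

/-- the order of the pole in a relation -/
theorem pole_rel (hi : i ≤ 2 * d) {ι : Type} [Fintype ι] (Z : ι → Ext2 K F)
    (f : ∀ j, (Z j).Z →ₐ[F] L) (e : ι → ℤ) (m : ℕ)
    (h : ∀ g : Gal(L/F), ∑ j, e j * fx (f j).fieldRange.fixingSubgroup g = m)
    (hX : ∀ᶠ v : HeightOneSpectrum (𝓞 F) in cofinite, ∃ α : Fin N → ℂ, IsFrobenius X d i v α)
    (B0 : HeightOneSpectrum (𝓞 F) → ℂ[X]) (hB0 : IsEulerSystem X d i N B0)
    (B : ∀ j, HeightOneSpectrum (𝓞 (Z j).Z) → ℂ[X]) (hB : ∀ j, IsEulerSystem X d i N (B j))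
    (r : ι → ℤ) (hr : ∀ j, PoleOrder i (B j) 1 (r j)) :
    PoleOrder i B0 m (∑ j, e j * r j) := by
  classical
  rw [pole_iff hi hX hB0]
  have hr' : ∀ j, ∃ c : ℝ, 0 < c ∧
      Tendsto (fun ε : ℝ => ε ^ (r j) * ‖LFun (B j) (edge i + ε)‖) (𝓝[>] 0) (𝓝 c) := by
    intro j
    obtain ⟨c, hc, hcl⟩ := (pole_iff hi (frob_over (F := F) (Z := (Z j).Z) hX) (hB j) 1 (r j)).1
      (hr j)
    simp only [pow_one] at hcl
    exact ⟨c, hc, hcl⟩
  choose c hc hcl using hr'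
  obtain ⟨R, hR1, hR2, hR3⟩ := L_rel2 hi Z f e m h hX B0 hB0 B hB
  have hR := near_right hR3
  have hRt : Tendsto (fun ε : ℝ => R (edge i + (ε : ℂ))) (𝓝[>] 0) (𝓝 (R (edge i))) :=
    hR1.continuousAt.tendsto.comp (tendsto_edge i)
  refine ⟨‖R (edge i)‖ * ∏ j, c j ^ e j,
    mul_pos (norm_pos_iff.2 hR2) (Finset.prod_pos fun j _ => zpow_pos (hc j) _), ?_⟩
  have h1 : Tendsto (fun ε : ℝ => ‖R (edge i + (ε : ℂ))‖ *
      ∏ j, (ε ^ (r j) * ‖LFun (B j) (edge i + ε)‖) ^ e j) (𝓝[>] 0)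
      (𝓝 (‖R (edge i)‖ * ∏ j, c j ^ e j)) :=
    hRt.norm.mul (tendsto_finsetProd _ fun j _ => (hcl j).zpow₀ (e j) (Or.inl (hc j).ne'))
  refine h1.congr' ?_
  filter_upwards [hR, self_mem_nhdsWithin] with ε h2 hε
  have hε' : 0 < ε := hε
  rw [← norm_pow, h2, norm_mul, norm_prod]
  have h3 : ∏ j, (ε ^ r j * ‖LFun (B j) (edge i + ε)‖) ^ e j =
      ε ^ (∑ j, e j * r j) * ∏ j, ‖LFun (B j) (edge i + ε) ^ e j‖ := by
    rw [zpow_sum' hε'.ne', ← Finset.prod_mul_distrib]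
    refine Finset.prod_congr rfl fun j _ => ?_
    rw [mul_zpow, ← zpow_mul, norm_zpow, mul_comm (r j)]
  rw [h3]
  ring

/-- roots -/
theorem pole_root (hi : i ≤ 2 * d)
    (hX : ∀ᶠ v : HeightOneSpectrum (𝓞 F) in cofinite, ∃ α : Fin N → ℂ, IsFrobenius X d i v α)
    {B : HeightOneSpectrum (𝓞 F) → ℂ[X]} (hB : IsEulerSystem X d i N B) {m : ℕ} (hm : m ≠ 0)
    {r : ℤ} (h : PoleOrder i B m (m * r)) : PoleOrder i B 1 r := by
  rw [pole_iff hi hX hB] at h ⊢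
  obtain ⟨c, hc, hcl⟩ := h
  refine ⟨c ^ ((m : ℝ)⁻¹), Real.rpow_pos_of_pos hc _, ?_⟩
  have h1 := hcl.rpow_const (p := (m : ℝ)⁻¹) (Or.inl hc.ne')
  refine h1.congr' ?_
  filter_upwards [self_mem_nhdsWithin] with ε hε
  have hε' : 0 < ε := hε
  have h2 : ε ^ ((m : ℤ) * r) * ‖LFun B (edge i + ε)‖ ^ m =
      (ε ^ r * ‖LFun B (edge i + ε)‖) ^ m := by
    rw [mul_pow, mul_comm (m : ℤ), zpow_mul, zpow_natCast]
  rw [h2, pow_one, Real.pow_rpow_inv_natCast (by positivity) hm]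

end

end Pool.Agent.V5helper60.AF
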