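import Pool.Agent.V5helper60.AF.Loc

/-!
# Relations between the L-functions of a projective variety over extension fields
-/

set_option autoImplicit false

namespace Pool.Agent.V5helper60.AF

open NumberField IsDedekindDomain Filter Topology Polynomial
open Pool.Agent.W353.EF (cone IsFrobenius IsEulerSystem LFun)
open Pool.Agent.H921R2.TatePole (nm two_le_nm nm_summable)
open Pool.Agent.R433.MD Pool.Agent.H341R2.EC

/-- an extension of `F` in a tower over `K` -/
structure Ext2 (K F : Type) [Field K] [NumberField K] [Field F] [NumberField F] [Algebra K F] where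
  Z : Type
  [field : Field Z]
  [nf : NumberField Z]
  [algK : Algebra K Z]
  [algF : Algebra F Z]
  [tow : IsScalarTower K F Z]

attribute [instance] Ext2.field Ext2.nf Ext2.algK Ext2.algF Ext2.tow

/-- the trivial extension -/
def Ext2.self (K F : Type) [Field K] [NumberField K] [Field F] [NumberField F] [Algebra K F] :
    Ext2 K F where
  Z := F

section
variable {K : Type} [Field K] [NumberField K] {n : ℕ} {X : Set (MvPolynomial (Fin n) (𝓞 K))}
  {d i N : ℕ} {F : Type} [Field F] [NumberField F] [Algebra K F]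

/-- almost all primes of `F` have only good primes above them -/
theorem fib_eventually {Z : Type} [Field Z] [NumberField Z] [Algebra F Z]
    {P : HeightOneSpectrum (𝓞 Z) → Prop} (h : ∀ᶠ w in cofinite, P w) :
    ∀ᶠ v : HeightOneSpectrum (𝓞 F) in cofinite, ∀ w : Fib Z v, P w.1 := by
  rw [Filter.eventually_cofinite] at h ⊢
  refine (h.image (und (K := F))).subset ?_
  intro v hv
  rw [Set.mem_ofPred_eq] at hv
  push Not at hv
  obtain ⟨w, hw⟩ := hv
  exact ⟨w.1, hw, w.2⟩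

theorem good_fib (hi : i ≤ 2 * d) {Z : Type} [Field Z] [NumberField Z] [Algebra K Z]
    [Algebra F Z] [IsScalarTower K F Z]
    {B : HeightOneSpectrum (𝓞 Z) → ℂ[X]} (hB : IsEulerSystem X d i N B) :
    ∀ᶠ v : HeightOneSpectrum (𝓞 F) in cofinite, ∀ α : Fin N → ℂ, IsFrobenius X d i v α →
      ∀ (w : Fib Z v) (z : ℂ), (B w.1).eval z = ∏ l, (1 - α l ^ fdeg w * z) := by
  filter_upwards [fib_eventually (F := F) hB.1] with v hv α hα w z
  obtain ⟨α', hα', he⟩ := hv w
  rw [he]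
  have h1 : Finset.univ.val.map α' = Finset.univ.val.map fun j => α j ^ fdeg w :=
    Pool.Agent.W353.PV.Eig.unique' (X := X) (d := d) hi hα' (frob_up hα w)
  have h2 := congrArg (fun s : Multiset ℂ => (s.map fun a => 1 - a * z).prod) h1
  simp only [Multiset.map_map] at h2
  exact h2

/-- **Relations between the L-functions.** -/
theorem rel_near (hi : i ≤ 2 * d) {ι : Type} [Fintype ι] (Z : ι → Ext2 K F) (a b : ι → ℕ)
    {D : 𝓞 F} (hD0 : D ≠ 0)
    (hD : ∀ (k : Type) [Field k] [Finite k] (φ : 𝓞 F →+* k), φ D ≠ 0 →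
      ∑ j, a j * nh (Z j).Z φ = ∑ j, b j * nh (Z j).Z φ)
    (hX : ∀ᶠ v : HeightOneSpectrum (𝓞 F) in cofinite, ∃ α : Fin N → ℂ, IsFrobenius X d i v α)
    (B : ∀ j, HeightOneSpectrum (𝓞 (Z j).Z) → ℂ[X]) (hB : ∀ j, IsEulerSystem X d i N (B j)) :
    ∃ R : ℂ → ℂ, AnalyticAt ℂ R (edge i) ∧ R (edge i) ≠ 0 ∧
      ∀ᶠ s in 𝓝 (edge i), (i : ℝ) / 2 + 1 < s.re →
        ∏ j, LFun (B j) s ^ a j = R s * ∏ j, LFun (B j) s ^ b j := by
  classical
  have hall : ∀ᶠ v : HeightOneSpectrum (𝓞 F) in cofinite, (∃ α : Fin N → ℂ,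
      ∀ j, ∀ (w : Fib (Z j).Z v) (z : ℂ), (B j w.1).eval z = ∏ l, (1 - α l ^ fdeg w * z)) ∧
      D ∉ v.asIdeal := by
    have h1 : ∀ᶠ v : HeightOneSpectrum (𝓞 F) in cofinite, ∀ j, ∀ α : Fin N → ℂ,
        IsFrobenius X d i v α → ∀ (w : Fib (Z j).Z v) (z : ℂ),
          (B j w.1).eval z = ∏ l, (1 - α l ^ fdeg w * z) := by
      rw [Filter.eventually_all]
      exact fun j => good_fib hi (hB j)
    filter_upwards [h1, hX, (finite_mem (K := F) hD0).compl_mem_cofinite] with v h2 h3 h4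
    obtain ⟨α, hα⟩ := h3
    exact ⟨⟨α, fun j => h2 j α hα⟩, h4⟩
  rw [Filter.eventually_cofinite] at hall
  set S := hall.toFinset with hS
  -- local products
  let lf : ∀ j, HeightOneSpectrum (𝓞 (Z j).Z) → ℂ → ℂ := fun j w s =>
    (B j w).eval (((Ideal.absNorm w.asIdeal : ℕ) : ℂ) ^ (-s))
  let A : (ι → ℕ) → ℂ → HeightOneSpectrum (𝓞 F) → ℂ := fun e s v =>
    ∏ j, (∏ w : Fib (Z j).Z v, (lf j w.1 s)⁻¹) ^ e j
  have hlfa : ∀ j w, Differentiable ℂ (lf j w) := by
    intro j w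
    have h0 : ((Ideal.absNorm w.asIdeal : ℕ) : ℂ) ≠ 0 := by exact_mod_cast (nm_pos w).ne'
    exact (B j w).differentiable.comp (differentiable_id.neg.const_cpow (Or.inl h0))
  have hlf0 : ∀ j w, lf j w (edge i) ≠ 0 := fun j w => (hB j).2 w
  have hprod : ∀ (e : ι → ℕ) (s : ℂ), (i : ℝ) / 2 + 1 < s.re → (∀ j w, lf j w s ≠ 0) →
      HasProd (A e s) (∏ j, LFun (B j) s ^ e j) := by
    intro e s hs hne
    refine hasProd_prod fun j _ => ?_
    exact hasProd_pow (hasProd_fib (hasProd_B (hB j) hs (hne j)).1) (e j)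
  have hgood : ∀ (s : ℂ) (v : HeightOneSpectrum (𝓞 F)), v ∉ S → A a s v = A b s v := by
    intro s v hv
    rw [hS, Set.Finite.mem_toFinset, Set.mem_ofPred_eq, not_not] at hv
    obtain ⟨⟨α, hα⟩, hvD⟩ := hv
    let G : ℕ → ℂ := fun m => (∏ l, (1 - α l ^ m * ((nm v ^ m : ℕ) : ℂ) ^ (-s)))⁻¹
    have hA : ∀ e : ι → ℕ, A e s v = ∏ j, (∏ w : Fib (Z j).Z v, G (fdeg w)) ^ e j := by
      intro e
      refine Finset.prod_congr rfl fun j _ => ?_
      congr 1
      refine Finset.prod_congr rfl fun w _ => ?_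
      have h1 : (Ideal.absNorm w.1.asIdeal : ℕ) = nm v ^ fdeg w := nm_fib w
      simp only [lf, G]
      rw [hα, h1]
    rw [hA, hA]
    refine comb (fun j => Fib (Z j).Z v) (fun j w => fdeg w) (fun j w => fdeg_pos w) a b ?_ G
    intro m hm
    obtain ⟨k, iF, iFin, iA, hk⟩ := exists_ext (𝓞 F ⧸ v.asIdeal) hm
    have h1 := hD k (base v k) (by
      rw [base, RingHom.comp_apply]
      intro h
      rw [map_eq_zero_iff _ (algebraMap (𝓞 F ⧸ v.asIdeal) k).injective,
        Ideal.Quotient.eq_zero_iff_mem] at h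
      exact hvD h)
    simp only [nh_eq, hk] at h1
    exact h1
  -- the finite parts
  have hne1 : ∀ (e : ι → ℕ), ∏ v ∈ S, A e (edge i) v ≠ 0 := by
    intro e
    refine Finset.prod_ne_zero_iff.2 fun v _ => Finset.prod_ne_zero_iff.2 fun j _ => ?_
    refine pow_ne_zero _ (Finset.prod_ne_zero_iff.2 fun w _ => inv_ne_zero (hlf0 _ _))
  have han : ∀ e : ι → ℕ, AnalyticAt ℂ (fun s => ∏ v ∈ S, A e s v) (edge i) := by
    intro e
    apply Finset.analyticAt_fun_prod
    intro v _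
    change AnalyticAt ℂ (fun s => ∏ j, (∏ w : Fib (Z j).Z v, (lf j w.1 s)⁻¹) ^ e j) (edge i)
    apply Finset.analyticAt_fun_prod
    intro j _
    apply AnalyticAt.fun_pow
    apply Finset.analyticAt_fun_prod
    intro w _
    exact ((hlfa j w.1).analyticAt _).fun_inv (hlf0 _ _)
  have hnear : ∀ᶠ s in 𝓝 (edge i), ∀ j w, lf j w s ≠ 0 := by
    rw [Filter.eventually_all]
    exact fun j => near_ne (hB j)
  refine ⟨fun s => (∏ v ∈ S, A a s v) / (∏ v ∈ S, A b s v), (han a).fun_div (han b) (hne1 b),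
    div_ne_zero (hne1 a) (hne1 b), ?_⟩
  filter_upwards [hnear, (han b).continuousAt.eventually_ne (hne1 b)] with s hs hb hre
  have h1 := compare (hprod a s hre hs) (hprod b s hre hs) S (hgood s)
  rw [div_mul_eq_mul_div, eq_div_iff hb, h1, mul_comm]

variable {L : Type} [Field L] [NumberField L] [Algebra F L] [IsGalois F L]

/-- relations of permutation characters give relations of L-functions -/
theorem L_rel2 (hi : i ≤ 2 * d) {ι : Type} [Fintype ι] (Z : ι → Ext2 K F)
    (f : ∀ j, (Z j).Z →ₐ[F] L) (e : ι → ℤ) (m : ℕ)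
    (h : ∀ g : Gal(L/F), ∑ j, e j * fx (f j).fieldRange.fixingSubgroup g = m)
    (hX : ∀ᶠ v : HeightOneSpectrum (𝓞 F) in cofinite, ∃ α : Fin N → ℂ, IsFrobenius X d i v α)
    (B0 : HeightOneSpectrum (𝓞 F) → ℂ[X]) (hB0 : IsEulerSystem X d i N B0)
    (B : ∀ j, HeightOneSpectrum (𝓞 (Z j).Z) → ℂ[X]) (hB : ∀ j, IsEulerSystem X d i N (B j)) :
    ∃ R : ℂ → ℂ, AnalyticAt ℂ R (edge i) ∧ R (edge i) ≠ 0 ∧
      ∀ᶠ s in 𝓝 (edge i), (i : ℝ) / 2 + 1 < s.re →
        LFun B0 s ^ m = R s * ∏ j, LFun (B j) s ^ e j := by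
  classical
  obtain ⟨D, hD0, hD⟩ := frob_count F L
  let Y : Option ι → Ext2 K F := fun j =>
    match j with
    | none => Ext2.self K F
    | some j => Z j
  let a : Option ι → ℕ := fun j =>
    match j with
    | none => 0
    | some j => (e j).toNat
  let b : Option ι → ℕ := fun j =>
    match j with
    | none => m
    | some j => (-e j).toNat
  let V : ∀ j, HeightOneSpectrum (𝓞 (Y j).Z) → ℂ[X] := fun j =>
    match j with
    | none => B0
    | some j => B j
  have hV : ∀ j, IsEulerSystem X d i N (V j) := by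
    rintro (_ | j)
    · exact hB0
    · exact hB j
  obtain ⟨R, hR, hR1, hRL⟩ := rel_near hi Y a b hD0 (by
    intro k _ _ φ hφ
    obtain ⟨g, hg⟩ := hD k φ hφ
    simp only [Fintype.sum_option]
    have h2 := (nh_self F φ).2
    have h3 : nh (Y none).Z φ = 1 := h2
    have h4 : ∀ j : ι, nh (Y (some j)).Z φ =
        Nat.card {c : Gal(L/F) ⧸ (f j).fieldRange.fixingSubgroup // g • c = c} := fun j => by
      rw [← hg (f j).fieldRange]
      exact Pool.Agent.R333.BR.nh_congr (AlgEquiv.ofInjectiveField (f j)) φ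
    simp only [a, b, zero_add, h3, mul_one, h4]
    have h5 := h g
    have h6 : ((∑ j, (e j).toNat * Nat.card {c : Gal(L/F) ⧸ (f j).fieldRange.fixingSubgroup //
        g • c = c} : ℕ) : ℤ) = ((m + ∑ j, (-e j).toNat *
        Nat.card {c : Gal(L/F) ⧸ (f j).fieldRange.fixingSubgroup // g • c = c} : ℕ) : ℤ) := by
      push_cast
      rw [← h5, ← Finset.sum_add_distrib]
      refine Finset.sum_congr rfl fun j _ => ?_
      have h7 := Int.toNat_sub_toNat_neg (e j)
      rw [fx]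
      linear_combination (Nat.card {c : Gal(L/F) ⧸ (f j).fieldRange.fixingSubgroup //
        g • c = c} : ℤ) * h7
    exact_mod_cast h6) hX V hV
  have hnear : ∀ᶠ s in 𝓝 (edge i), ∀ j, ∀ w,
      (B j w).eval (((Ideal.absNorm w.asIdeal : ℕ) : ℂ) ^ (-s)) ≠ 0 := by
    rw [Filter.eventually_all]
    exact fun j => near_ne (hB j)
  refine ⟨fun s => (R s)⁻¹, hR.fun_inv hR1, inv_ne_zero hR1, ?_⟩
  filter_upwards [hRL, hR.continuousAt.eventually_ne hR1, hnear] with s h2 h1 hn hs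
  specialize h2 hs
  simp only [Fintype.prod_option] at h2
  have h3 : LFun B0 s ^ 0 * ∏ j, LFun (B j) s ^ (e j).toNat =
      R s * (LFun B0 s ^ m * ∏ j, LFun (B j) s ^ (-e j).toNat) := h2
  have hne : ∀ j, LFun (B j) s ≠ 0 := fun j => (hasProd_B (hB j) hs (hn j)).2
  rw [pow_zero, one_mul] at h3
  have h4 : ∏ j, LFun (B j) s ^ e j =
      (∏ j, LFun (B j) s ^ (e j).toNat) / ∏ j, LFun (B j) s ^ (-e j).toNat := by
    rw [← Finset.prod_div_distrib]
    refine Finset.prod_congr rfl fun j _ => ?_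
    conv_lhs => rw [← Int.toNat_sub_toNat_neg (e j)]
    rw [zpow_sub₀ (hne _), zpow_natCast, zpow_natCast]
  have h5 : ∏ j, LFun (B j) s ^ (-e j).toNat ≠ 0 :=
    Finset.prod_ne_zero_iff.2 fun j _ => pow_ne_zero _ (hne _)
  rw [h4, h3]
  field_simp

end

end Pool.Agent.V5helper60.AF
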