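import Pool.Agent.V5helper60.AF.Pole
import Pool.Agent.V5helper60.AF.Inv

/-!
# Critical extensions for the analytic conjecture of Tate
-/

set_option autoImplicit false

namespace Pool.Agent.V5helper60.AF

open NumberField IsDedekindDomain Filter Topology Polynomial
open Pool.Agent.W353.EF (cone IsFrobenius IsEulerSystem LFun)
open Pool.Agent.R433.MD (fx)
open Pool.Agent.V5helper60.HW

/-- `F` is a number field, and the pole of `L(H^i(X_F), s)` at `i/2 + 1` has the order `r/q` -/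
def PoleOver {K : Type} [Field K] {n : ℕ} (X : Set (MvPolynomial (Fin n) (𝓞 K))) (d i N : ℕ)
    (F : Type) [Field F] [Algebra K F] (q : ℕ) (r : ℤ) : Prop :=
  ∃ (_ : NumberField F) (B : HeightOneSpectrum (𝓞 F) → ℂ[X]),
    IsEulerSystem X d i N B ∧ PoleOrder i B q r

section
variable {K : Type} [Field K] [NumberField K] {n : ℕ} {X : Set (MvPolynomial (Fin n) (𝓞 K))}
  {d i N : ℕ}

theorem poleOver_down {F L : IntermediateField K (AlgebraicClosure K)}
    {Y : IntermediateField F (EL F L)} {q : ℕ} {r : ℤ} (h : PoleOver X d i N (down Y) q r) :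
    PoleOver X d i N (IntermediateField.lift Y) q r := h

/-- the order of the pole over `F` from the orders over the fields in a relation -/
theorem poleOver_rel (hi : i ≤ 2 * d)
    (hX : ∀ᶠ v : HeightOneSpectrum (𝓞 K) in cofinite, ∃ α : Fin N → ℂ, IsFrobenius X d i v α)
    {F L : IntermediateField K (AlgebraicClosure K)} (h1 : NumberField F)
    (h2 : NumberField (EL F L)) (h3 : IsGalois F (EL F L))
    (S : Finset (IntermediateField F (EL F L))) (e : IntermediateField F (EL F L) → ℤ) (m : ℕ)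
    (h : ∀ g : Gal(EL F L/F), ∑ Y ∈ S, e Y * fx Y.fixingSubgroup g = m)
    (r : IntermediateField F (EL F L) → ℤ)
    (hr : ∀ Y ∈ S, PoleOver X d i N (down Y) 1 (r Y)) :
    ∃ B0 : HeightOneSpectrum (𝓞 F) → ℂ[X], IsEulerSystem X d i N B0 ∧
      PoleOrder i B0 m (∑ Y ∈ S, e Y * r Y) := by
  classical
  have hXF : ∀ᶠ v : HeightOneSpectrum (𝓞 F) in cofinite, ∃ α : Fin N → ℂ,
      IsFrobenius X d i v α := by
    have h4 : ∀ᶠ v : HeightOneSpectrum (𝓞 K) in cofinite, ∃ α : Fin N → ℂ,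
        IsFrobenius X d i v α := hX
    exact frob_over (F := K) (Z := F) h4
  obtain ⟨B0, hB0⟩ := exists_sys (F := F) hXF
  refine ⟨B0, hB0, ?_⟩
  have hr' : ∀ Y : S, PoleOver X d i N (IntermediateField.lift Y.1) 1 (r Y.1) :=
    fun Y => poleOver_down (hr Y.1 Y.2)
  choose hnf B hB hp using hr'
  let Z : S → Ext2 K F := fun Y => { Z := IntermediateField.lift Y.1 }
  let f : ∀ Y : S, (Z Y).Z →ₐ[F] EL F L := fun Y =>
    Y.1.val.comp (IntermediateField.liftAlgEquiv Y.1).symm.toAlgHom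
  have hf : ∀ Y : S, (f Y).fieldRange = Y.1 := by
    intro Y
    ext x
    constructor
    · rintro ⟨y, rfl⟩
      exact ((IntermediateField.liftAlgEquiv Y.1).symm y).2
    · intro hx
      refine ⟨IntermediateField.liftAlgEquiv Y.1 ⟨x, hx⟩, ?_⟩
      change Y.1.val ((IntermediateField.liftAlgEquiv Y.1).symm
        (IntermediateField.liftAlgEquiv Y.1 ⟨x, hx⟩)) = x
      rw [AlgEquiv.symm_apply_apply]
      rfl
  have h5 := pole_rel hi Z f (fun Y => e Y.1) m (by
    intro g
    have h6 : ∀ Y : S, fx (f Y).fieldRange.fixingSubgroup g = fx Y.1.fixingSubgroup g := by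
      intro Y
      rw [hf]
    rw [Finset.sum_congr rfl fun Y _ => by rw [h6 Y],
      Finset.sum_coe_sort S (fun Y => e Y * fx Y.fixingSubgroup g)]
    exact h g) hXF B0 hB0 B hB (fun Y => r Y.1) hp
  rwa [Finset.sum_coe_sort S (fun Y => e Y * r Y)] at h5

/-- the rank is the order of the pole -/
def RankIsOrder {V : Type} [AddCommGroup V] [Module ℚ V]
    (ρ : Representation ℚ Gal(AlgebraicClosure K/K) V) (X : Set (MvPolynomial (Fin n) (𝓞 K)))
    (d i N : ℕ) (F : IntermediateField K (AlgebraicClosure K)) : Prop :=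
  PoleOver X d i N F 1 (Pool.Agent.W353.TD.rank ρ F)

theorem rank_inh {V : Type} [AddCommGroup V] [Module ℚ V] [FiniteDimensional ℚ V]
    (ρ : Representation ℚ Gal(AlgebraicClosure K/K) V) (hi : i ≤ 2 * d)
    (hX : ∀ᶠ v : HeightOneSpectrum (𝓞 K) in cofinite, ∃ α : Fin N → ℂ, IsFrobenius X d i v α)
    {m : ℕ} (hm : m ≠ 0) : Inh (RankIsOrder ρ X d i N) (RankIsOrder ρ X d i N) m := by
  intro F L h1 h2 h3 S e h hr
  obtain ⟨B0, hB0, h4⟩ := poleOver_rel hi hX h1 h2 h3 S e m h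
    (fun Y => (Pool.Agent.W353.TD.rank ρ (down Y) : ℤ)) hr
  rw [← rank_rel ρ S e m h] at h4
  exact ⟨h1, B0, hB0, pole_root hi (frob_over (F := K) (Z := F) hX) hB0 hm h4⟩

/-- the pole has an order in `(1/q) ℤ` -/
def HasOrderIn (X : Set (MvPolynomial (Fin n) (𝓞 K))) (d i N q : ℕ)
    (F : IntermediateField K (AlgebraicClosure K)) : Prop :=
  ∃ r : ℤ, PoleOver X d i N F q r

theorem order_inh (hi : i ≤ 2 * d)
    (hX : ∀ᶠ v : HeightOneSpectrum (𝓞 K) in cofinite, ∃ α : Fin N → ℂ, IsFrobenius X d i v α)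
    (m : ℕ) : Inh (HasOrderIn X d i N 1) (HasOrderIn X d i N m) m := by
  classical
  intro F L h1 h2 h3 S e h hr
  have hr' : ∀ Y : IntermediateField F (EL F L), ∃ r : ℤ, Y ∈ S →
      PoleOver X d i N (down Y) 1 r := by
    intro Y
    by_cases hY : Y ∈ S
    · obtain ⟨r, h⟩ := hr Y hY
      exact ⟨r, fun _ => h⟩
    · exact ⟨0, fun h => absurd h hY⟩
  choose r hr' using hr'
  obtain ⟨B0, hB0, h4⟩ := poleOver_rel hi hX h1 h2 h3 S e m h r hr'
  exact ⟨_, h1, B0, hB0, h4⟩

end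

end Pool.Agent.V5helper60.AF
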